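import Pool.Agent.Y324.AC.Hom

/-!
Automatic continuity of homomorphisms `θ` of C*-algebras into C*-algebras for which every
self-adjoint element is mapped to an element similar to a normal one.
-/

set_option autoImplicit false

open Filter Topology

namespace Pool.Agent.Y324.AC

section convex

variable {B : Type*} [NormedRing B] [StarRing B] [CStarRing B]

lemma normal_sq {n y : B} (hn : IsStarNormal n) : ‖n * y‖ ^ 2 ≤ ‖y‖ * ‖n ^ 2 * y‖ := by
  have hc : star n * n = n * star n := hn.star_comm_self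
  have h1 : ‖n * y‖ ^ 2 = ‖star y * (star n * n * y)‖ := by
    rw [sq, ← CStarRing.norm_star_mul_self, star_mul]
    simp only [mul_assoc]
  have h2 : ‖star n * n * y‖ ^ 2 = ‖n ^ 2 * y‖ ^ 2 := by
    rw [sq, sq, ← CStarRing.norm_star_mul_self, ← CStarRing.norm_star_mul_self]
    congr 1
    simp only [star_mul, star_star, star_pow, sq]
    have h3 : star n * n * (star n * n) = star n * star n * (n * n) := by
      calc star n * n * (star n * n) = star n * (n * star n) * n := by simp only [mul_assoc]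
        _ = star n * (star n * n) * n := by rw [hc]
        _ = _ := by simp only [mul_assoc]
    calc star y * (star n * n) * (star n * n * y) = star y * (star n * n * (star n * n)) * y := by
          simp only [mul_assoc]
      _ = star y * (star n * star n * (n * n)) * y := by rw [h3]
      _ = _ := by simp only [mul_assoc]
  have h4 : ‖star n * n * y‖ = ‖n ^ 2 * y‖ := by
    have := (sq_eq_sq₀ (norm_nonneg (star n * n * y)) (norm_nonneg (n ^ 2 * y))).mp h2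
    exact this
  rw [h1]
  calc ‖star y * (star n * n * y)‖ ≤ ‖star y‖ * ‖star n * n * y‖ := norm_mul_le _ _
    _ = ‖y‖ * ‖n ^ 2 * y‖ := by rw [norm_star, h4]

lemma isStarNormal_pow {n : B} (hn : IsStarNormal n) (k : ℕ) : IsStarNormal (n ^ k) := by
  constructor
  rw [star_pow]
  exact (hn.star_comm_self.pow_left k).pow_right k

lemma normal_pow {n y : B} (hn : IsStarNormal n) (j : ℕ) :
    ‖n * y‖ ^ (2 ^ j) * ‖y‖ ≤ ‖y‖ ^ (2 ^ j) * ‖n ^ (2 ^ j) * y‖ := by
  induction j with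
  | zero => simp [mul_comm]
  | succ j ih =>
    by_cases hy : ‖y‖ = 0
    · rw [hy]; simp
    have hy0 : 0 < ‖y‖ := lt_of_le_of_ne (norm_nonneg _) (Ne.symm hy)
    have h1 := normal_sq (y := y) (isStarNormal_pow hn (2 ^ j))
    rw [← pow_mul] at h1
    have h2 : (‖n * y‖ ^ (2 ^ j) * ‖y‖) ^ 2 ≤ (‖y‖ ^ (2 ^ j) * ‖n ^ (2 ^ j) * y‖) ^ 2 := by
      gcongr
    rw [mul_pow, mul_pow, ← pow_mul, ← pow_mul] at h2
    have h3 : ‖n * y‖ ^ (2 ^ j * 2) * ‖y‖ ^ 2 ≤
        ‖y‖ ^ (2 ^ j * 2) * (‖y‖ * ‖n ^ (2 ^ j * 2) * y‖) := h2.trans (by gcongr)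
    rw [pow_succ 2 j]
    have h4 : ‖y‖ * (‖n * y‖ ^ (2 ^ j * 2) * ‖y‖) ≤
        ‖y‖ * (‖y‖ ^ (2 ^ j * 2) * ‖n ^ (2 ^ j * 2) * y‖) := by
      calc _ = ‖n * y‖ ^ (2 ^ j * 2) * ‖y‖ ^ 2 := by ring
        _ ≤ _ := h3
        _ = _ := by ring
    exact le_of_mul_le_mul_left h4 hy0

/-- a normal element which is locally quasi-nilpotent at `y` annihilates `y` -/
lemma normal_zero {n y : B} (hn : IsStarNormal n) {K : ℝ}
    (hq : ∀ ε : ℝ, 0 < ε → ∀ᶠ m : ℕ in atTop, ‖n ^ m * y‖ ≤ K * ε ^ m) : n * y = 0 := by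
  by_contra hne
  have ha : 0 < ‖n * y‖ := norm_pos_iff.mpr hne
  have hb : 0 < ‖y‖ := by
    rw [norm_pos_iff]
    rintro rfl
    simp at hne
  set ε : ℝ := ‖n * y‖ / (2 * ‖y‖) with hε
  have hε0 : 0 < ε := by positivity
  have hlim : Tendsto (fun j : ℕ => |K| * (1 / 2 : ℝ) ^ (2 ^ j)) atTop (𝓝 0) := by
    have h1 : Tendsto (fun m : ℕ => (1 / 2 : ℝ) ^ m) atTop (𝓝 0) :=
      tendsto_pow_atTop_nhds_zero_of_lt_one (by norm_num) (by norm_num)
    have h2 : Tendsto (fun j : ℕ => 2 ^ j) atTop atTop :=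
      tendsto_pow_atTop_atTop_of_one_lt (by norm_num)
    have := (h1.comp h2).const_mul |K|
    simpa using this
  have hev : ∀ᶠ j : ℕ in atTop, ‖y‖ ≤ |K| * (1 / 2 : ℝ) ^ (2 ^ j) := by
    have h2 : Tendsto (fun j : ℕ => 2 ^ j) atTop atTop :=
      tendsto_pow_atTop_atTop_of_one_lt (by norm_num)
    filter_upwards [h2.eventually (hq ε hε0)] with j hj
    have h3 := normal_pow (y := y) hn j
    have h4 : ‖n * y‖ ^ (2 ^ j) * ‖y‖ ≤ ‖n * y‖ ^ (2 ^ j) * (|K| * (1 / 2 : ℝ) ^ (2 ^ j)) := by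
      calc ‖n * y‖ ^ (2 ^ j) * ‖y‖ ≤ ‖y‖ ^ (2 ^ j) * ‖n ^ (2 ^ j) * y‖ := h3
        _ ≤ ‖y‖ ^ (2 ^ j) * (|K| * ε ^ (2 ^ j)) := by
            gcongr
            exact hj.trans (by gcongr; exact le_abs_self K)
        _ = |K| * (‖y‖ * ε) ^ (2 ^ j) := by rw [mul_pow]; ring
        _ = |K| * (‖n * y‖ * (1 / 2)) ^ (2 ^ j) := by
            congr 2
            rw [hε]; field_simp
        _ = _ := by rw [mul_pow]; ring
    exact le_of_mul_le_mul_left h4 (by positivity)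
  have := ge_of_tendsto hlim hev
  linarith

end convex

variable {A : Type*} [CStarAlgebra A]

section left

variable {B : Type*} [NormedRing B] [StarRing B] [CStarRing B] [NormedAlgebra ℂ B]
  [CompleteSpace B]

/-- the value of `θ` at every self-adjoint element is similar to a normal element -/
def SimNormal (θ : A → B) : Prop :=
  ∀ g : A, IsSelfAdjoint g → ∃ S : Bˣ, IsStarNormal ((S : B) * θ g * ((S⁻¹ : Bˣ) : B))

lemma conj_pow (S : Bˣ) (a : B) (m : ℕ) :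
    ((S : B) * a * ((S⁻¹ : Bˣ) : B)) ^ m = (S : B) * a ^ m * ((S⁻¹ : Bˣ) : B) := by
  induction m with
  | zero => simp
  | succ m ih =>
    rw [pow_succ, ih, pow_succ]
    calc (S : B) * a ^ m * ((S⁻¹ : Bˣ) : B) * ((S : B) * a * ((S⁻¹ : Bˣ) : B))
        = (S : B) * a ^ m * (((S⁻¹ : Bˣ) : B) * (S : B)) * a * ((S⁻¹ : Bˣ) : B) := by
          simp only [mul_assoc]
      _ = _ := by rw [Units.inv_mul, mul_one]; simp only [mul_assoc]

lemma act_pow_apply (θ : A →ₐ[ℂ] B) (g : A) (m : ℕ) (s : Sp θ) :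
    inc θ ((act θ g ^ m) s) = θ g ^ m * inc θ s := by
  rw [← map_pow, act_apply, map_pow]

lemma qn_pow {E : Type*} [NormedAddCommGroup E] [NormedSpace ℂ E] [CompleteSpace E]
    {N : E →L[ℂ] E} (hN : spectralRadius ℂ N = 0) {ε : ℝ} (hε : 0 < ε) :
    ∀ᶠ m : ℕ in atTop, ‖N ^ m‖ ≤ ε ^ m := by
  have h1 := spectrum.pow_nnnorm_pow_one_div_tendsto_nhds_spectralRadius N
  rw [hN] at h1
  have h2 : ∀ᶠ m : ℕ in atTop, ((‖N ^ m‖₊ : ENNReal) ^ (1 / m : ℝ)) < ENNReal.ofReal ε :=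
    h1.eventually_lt_const (by simpa using hε)
  filter_upwards [h2, eventually_gt_atTop 0] with m hm hm0
  have hm0' : (0 : ℝ) < m := by exact_mod_cast hm0
  rw [← ENNReal.lt_rpow_inv_iff (by positivity)] at hm
  rw [one_div, inv_inv, ENNReal.rpow_natCast, ← ENNReal.ofReal_pow hε.le,
    ← ENNReal.ofReal_coe_nnreal, ENNReal.ofReal_lt_ofReal_iff (by positivity)] at hm
  simpa using hm.le

lemma act_zero_of_normal (θ : A →ₐ[ℂ] B) {g : A} (S : Bˣ)
    (hS : IsStarNormal ((S : B) * θ g * ((S⁻¹ : Bˣ) : B))) (hg : g ∈ KL θ) : act θ g = 0 := by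
  ext s
  apply inc_inj
  rw [act_apply, ContinuousLinearMap.zero_apply, map_zero]
  have hqn : spectralRadius ℂ (act θ g) = 0 := act_qn θ hg
  have h1 : ((S : B) * θ g * ((S⁻¹ : Bˣ) : B)) * ((S : B) * inc θ s) = 0 := by
    refine normal_zero hS (K := ‖(S : B)‖ * ‖s‖) fun ε hε => ?_
    filter_upwards [qn_pow hqn hε] with m hm
    have h2 : ((S : B) * θ g * ((S⁻¹ : Bˣ) : B)) ^ m * ((S : B) * inc θ s) =
        (S : B) * (inc θ ((act θ g ^ m) s)) := by
      rw [conj_pow, act_pow_apply]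
      calc (S : B) * θ g ^ m * ((S⁻¹ : Bˣ) : B) * ((S : B) * inc θ s)
          = (S : B) * θ g ^ m * (((S⁻¹ : Bˣ) : B) * (S : B)) * inc θ s := by
            simp only [mul_assoc]
        _ = _ := by rw [Units.inv_mul, mul_one, mul_assoc]
    rw [h2]
    calc ‖(S : B) * (inc θ ((act θ g ^ m) s))‖ ≤ ‖(S : B)‖ * ‖inc θ ((act θ g ^ m) s)‖ :=
          norm_mul_le _ _
      _ = ‖(S : B)‖ * ‖(act θ g ^ m) s‖ := by rw [inc_norm]
      _ ≤ ‖(S : B)‖ * (‖act θ g ^ m‖ * ‖s‖) := by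
          gcongr
          exact (act θ g ^ m).le_opNorm s
      _ ≤ ‖(S : B)‖ * (ε ^ m * ‖s‖) := by gcongr
      _ = ‖(S : B)‖ * ‖s‖ * ε ^ m := by ring
  have h3 : (S : B) * (θ g * inc θ s) = 0 := by
    rw [← h1]
    calc (S : B) * (θ g * inc θ s)
        = (S : B) * θ g * (((S⁻¹ : Bˣ) : B) * (S : B)) * inc θ s := by
          rw [Units.inv_mul, mul_one, mul_assoc]
      _ = _ := by simp only [mul_assoc]
  calc θ g * inc θ s = ((S⁻¹ : Bˣ) : B) * ((S : B) * (θ g * inc θ s)) := by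
        rw [← mul_assoc, Units.inv_mul, one_mul]
    _ = 0 := by rw [h3, mul_zero]

lemma closed_of_normal (θ : A →ₐ[ℂ] B) (hθ : SimNormal θ) : IsClosed (IL θ.toLinearMap) :=
  closed_of_nil θ fun g hg hs => by
    obtain ⟨S, hS⟩ := hθ g hs
    rw [act_zero_of_normal θ S hS hg]
    exact IsNilpotent.zero

end left

section star

variable {B : Type*} [NormedRing B] [StarRing B] [CStarRing B] [NormedAlgebra ℂ B]
  [StarModule ℂ B]

lemma simNormal_cj {θ : A →ₐ[ℂ] B} (hθ : SimNormal θ) : SimNormal (cj θ) := by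
  intro g hg
  obtain ⟨S, hS⟩ := hθ g hg
  refine ⟨star S⁻¹, ?_⟩
  have h1 : ((star S⁻¹ : Bˣ) : B) * cj θ g * (((star S⁻¹)⁻¹ : Bˣ) : B) =
      star ((S : B) * θ g * ((S⁻¹ : Bˣ) : B)) := by
    rw [cj_apply, hg.star_eq]
    have : (star S⁻¹)⁻¹ = star S := by
      rw [← star_inv, inv_inv]
    rw [this, Units.coe_star, Units.coe_star, star_mul, star_mul, mul_assoc]
  rw [h1]
  exact ⟨by rw [star_star]; exact hS.star_comm_self.symm⟩

theorem bounded_of_normal [CompleteSpace B] (θ : A →ₐ[ℂ] B) (hθ : SimNormal θ) :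
    ∃ M : ℝ, ∀ a, ‖θ a‖ ≤ M * ‖a‖ := by
  refine auto (gm_hom θ) (closed_of_normal θ hθ) ?_
  rw [IR_eq]
  exact (closed_of_normal (cj θ) (simNormal_cj hθ)).preimage continuous_star

end star

end Pool.Agent.Y324.AC
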