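import Mathlib

/-!
Polynomial growth of all coefficient sequences of a bounded operator implies polynomial growth of
the norms of its powers.
-/

set_option autoImplicit false

open Filter Topology

namespace Pool.Agent.Y324.AC

variable {H : Type*} [NormedAddCommGroup H] [InnerProductSpace ℂ H] [CompleteSpace H]

lemma growth_of_weak (T : H →L[ℂ] H) (h : ∀ ξ η : H, ∃ (C : ℝ) (k : ℕ), ∀ n : ℕ,
    ‖inner ℂ η ((T ^ n) ξ)‖ ≤ C * ((n : ℝ) + 1) ^ k) :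
    ∃ (C : ℝ) (k : ℕ), ∀ n : ℕ, ‖T ^ n‖ ≤ C * ((n : ℝ) + 1) ^ k := by
  let F : ℕ → Set (H × H) := fun K => {p | ∀ n : ℕ,
    ‖inner ℂ p.2 ((T ^ n) p.1)‖ ≤ K * ((n : ℝ) + 1) ^ K}
  have hFc : ∀ K, IsClosed (F K) := by
    intro K
    have : F K = ⋂ n : ℕ, {p : H × H | ‖inner ℂ p.2 ((T ^ n) p.1)‖ ≤ K * ((n : ℝ) + 1) ^ K} := by
      ext p; simp [F]
    rw [this]
    refine isClosed_iInter fun n => isClosed_le ?_ continuous_const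
    fun_prop
  have hU : ⋃ K, F K = Set.univ := by
    rw [Set.eq_univ_iff_forall]
    rintro ⟨ξ, η⟩
    obtain ⟨C, k, hC⟩ := h ξ η
    obtain ⟨m, hm⟩ := exists_nat_ge C
    rw [Set.mem_iUnion]
    refine ⟨max m k, fun n => (hC n).trans ?_⟩
    have h1 : (1 : ℝ) ≤ (n : ℝ) + 1 := by linarith [n.cast_nonneg (α := ℝ)]
    have h2 : ((n : ℝ) + 1) ^ k ≤ ((n : ℝ) + 1) ^ (max m k) :=
      pow_le_pow_right₀ h1 (le_max_right _ _)
    have h3 : C ≤ ((max m k : ℕ) : ℝ) := hm.trans (by exact_mod_cast le_max_left m k)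
    gcongr
  obtain ⟨K, ⟨ξ0, η0⟩, hi⟩ := nonempty_interior_of_iUnion_of_closed hFc hU
  obtain ⟨r, hr, hball⟩ := Metric.isOpen_iff.mp isOpen_interior _ hi
  have hb : ∀ ξ η : H, ‖ξ‖ < r → ‖η‖ < r → ∀ n : ℕ,
      ‖inner ℂ (η0 + η) ((T ^ n) (ξ0 + ξ))‖ ≤ K * ((n : ℝ) + 1) ^ K := by
    intro ξ η hξ hη
    have : (ξ0 + ξ, η0 + η) ∈ F K := by
      apply interior_subset
      apply hball
      rw [Metric.mem_ball, Prod.dist_eq, max_lt_iff, dist_eq_norm, dist_eq_norm]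
      simpa using ⟨hξ, hη⟩
    exact this
  have h0 : ‖(0 : H)‖ < r := by simpa using hr
  have hb2 : ∀ ξ η : H, ‖ξ‖ < r → ‖η‖ < r → ∀ n : ℕ,
      ‖inner ℂ η ((T ^ n) ξ)‖ ≤ 4 * K * ((n : ℝ) + 1) ^ K := by
    intro ξ η hξ hη n
    have e1 := hb ξ η hξ hη n
    have e2 := hb ξ 0 hξ h0 n
    have e3 := hb 0 η h0 hη n
    have e4 := hb 0 0 h0 h0 n
    rw [add_zero] at e2 e3 e4
    rw [add_zero] at e4
    have e5 : inner ℂ η ((T ^ n) ξ) = inner ℂ (η0 + η) ((T ^ n) (ξ0 + ξ)) -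
        inner ℂ η0 ((T ^ n) (ξ0 + ξ)) - (inner ℂ (η0 + η) ((T ^ n) ξ0) -
        inner ℂ η0 ((T ^ n) ξ0)) := by
      simp only [map_add, inner_add_left, inner_add_right]
      ring
    rw [e5]
    refine (norm_sub_le _ _).trans ?_
    have f1 := norm_sub_le (inner ℂ (η0 + η) ((T ^ n) (ξ0 + ξ))) (inner ℂ η0 ((T ^ n) (ξ0 + ξ)))
    have f2 := norm_sub_le (inner ℂ (η0 + η) ((T ^ n) ξ0)) (inner ℂ η0 ((T ^ n) ξ0))
    linarith
  refine ⟨4 * K / (r / 2) ^ 2, K, fun n => ?_⟩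
  set M : ℝ := 4 * K / (r / 2) ^ 2 * ((n : ℝ) + 1) ^ K with hM
  have hM0 : 0 ≤ M := by positivity
  have hb3 : ∀ ξ η : H, ‖inner ℂ η ((T ^ n) ξ)‖ ≤ M * ‖η‖ * ‖ξ‖ := by
    intro ξ η
    by_cases hξ : ‖ξ‖ = 0
    · rw [norm_eq_zero] at hξ; simp [hξ]
    by_cases hη : ‖η‖ = 0
    · rw [norm_eq_zero] at hη; simp [hη]
    have hξ0 : 0 < ‖ξ‖ := lt_of_le_of_ne (norm_nonneg _) (Ne.symm hξ)
    have hη0 : 0 < ‖η‖ := lt_of_le_of_ne (norm_nonneg _) (Ne.symm hη)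
    have g1 := hb2 (((r / 2 / ‖ξ‖ : ℝ) : ℂ) • ξ) (((r / 2 / ‖η‖ : ℝ) : ℂ) • η)
      (by rw [norm_smul, Complex.norm_real, Real.norm_eq_abs, abs_of_pos (by positivity),
            div_mul_cancel₀ _ hξ]; linarith)
      (by rw [norm_smul, Complex.norm_real, Real.norm_eq_abs, abs_of_pos (by positivity),
            div_mul_cancel₀ _ hη]; linarith) n
    rw [map_smul, inner_smul_left, inner_smul_right, norm_mul, norm_mul, RCLike.norm_conj,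
      Complex.norm_real, Complex.norm_real, Real.norm_eq_abs, Real.norm_eq_abs,
      abs_of_pos (by positivity), abs_of_pos (by positivity)] at g1
    have g2 : ‖inner ℂ η ((T ^ n) ξ)‖ = (‖η‖ * ‖ξ‖ / (r / 2) ^ 2) *
        (r / 2 / ‖η‖ * (r / 2 / ‖ξ‖ * ‖inner ℂ η ((T ^ n) ξ)‖)) := by
      field_simp
    rw [g2]
    calc (‖η‖ * ‖ξ‖ / (r / 2) ^ 2) * (r / 2 / ‖η‖ * (r / 2 / ‖ξ‖ * ‖inner ℂ η ((T ^ n) ξ)‖))
        ≤ (‖η‖ * ‖ξ‖ / (r / 2) ^ 2) * (4 * K * ((n : ℝ) + 1) ^ K) := by gcongr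
      _ = M * ‖η‖ * ‖ξ‖ := by rw [hM]; ring
  refine ContinuousLinearMap.opNorm_le_bound _ hM0 fun ξ => ?_
  by_cases hz : ‖(T ^ n) ξ‖ = 0
  · rw [hz]; positivity
  have hz0 : 0 < ‖(T ^ n) ξ‖ := lt_of_le_of_ne (norm_nonneg _) (Ne.symm hz)
  have g3 := hb3 ξ ((T ^ n) ξ)
  rw [inner_self_eq_norm_sq_to_K, norm_pow, RCLike.norm_ofReal, abs_norm, sq] at g3
  have g4 : ‖(T ^ n) ξ‖ * ‖(T ^ n) ξ‖ ≤ ‖(T ^ n) ξ‖ * (M * ‖ξ‖) := by
    calc _ ≤ _ := g3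
      _ = _ := by ring
  exact le_of_mul_le_mul_left g4 hz0

end Pool.Agent.Y324.AC
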