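import Mathlib

/-!
The gliding hump argument.
-/

set_option autoImplicit false

open Filter Topology

namespace Pool.Agent.Y324.AC

variable {X Y : Type*} [NormedAddCommGroup X] [NormedSpace ℂ X] [CompleteSpace X]
  [NormedAddCommGroup Y] [NormedSpace ℂ Y]

theorem hump (T : X →ₗ[ℂ] Y) (J : Submodule ℂ X) (hJ : IsClosed (J : Set X)) (M : ℝ)
    (hM : ∀ x ∈ J, ‖T x‖ ≤ M * ‖x‖) (E F : ℕ → X →L[ℂ] X) (C : ℕ → ℝ)
    (hC : ∀ k c, ‖T (E k c)‖ ≤ C k * (‖T c‖ + ‖c‖))
    (hEF : ∀ k j, j ≠ k → ∀ b, E k (F j b) ∈ J) (hEE : ∀ k b, E k (F k b) - F k b ∈ J) :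
    ∃ k, ∃ N : ℝ, ∀ b, ‖T (F k b)‖ ≤ N * ‖b‖ := by
  by_contra hcon
  push Not at hcon
  let r : ℕ → ℝ := fun k => (1 / 2) ^ k / (1 + ‖F k‖)
  have hr : ∀ k, 0 < r k := fun k => by positivity
  let Rk : ℕ → ℝ := fun k => |C k| * 2 + |M| * (‖E k‖ * 2 + 1) + k * (|C k| + 1)
  have hb : ∀ k, ∃ b : X, ‖b‖ ≤ r k ∧ Rk k < ‖T (F k b)‖ := by
    intro k
    obtain ⟨b, hb⟩ := hcon k (Rk k / r k)
    have hb0 : 0 < ‖b‖ := by
      rw [norm_pos_iff]
      rintro rfl
      simp at hb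
    refine ⟨((r k / ‖b‖ : ℝ) : ℂ) • b, ?_, ?_⟩
    · rw [norm_smul, Complex.norm_real, Real.norm_eq_abs, abs_of_pos (by positivity),
        div_mul_cancel₀ _ hb0.ne']
    · rw [map_smul, map_smul, norm_smul, Complex.norm_real, Real.norm_eq_abs,
        abs_of_pos (by positivity)]
      calc Rk k = (r k / ‖b‖) * (Rk k / r k * ‖b‖) := by
            have hrk := (hr k).ne'
            field_simp
        _ < (r k / ‖b‖) * ‖T (F k b)‖ := by
            apply mul_lt_mul_of_pos_left hb (by have := hr k; positivity)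
  choose b hb1 hb2 using hb
  have hFb : ∀ k, ‖F k (b k)‖ ≤ (1 / 2) ^ k := by
    intro k
    calc ‖F k (b k)‖ ≤ ‖F k‖ * ‖b k‖ := (F k).le_opNorm _
      _ ≤ (1 + ‖F k‖) * r k := by
          gcongr
          · linarith
          · exact hb1 k
      _ = (1 / 2) ^ k := by
          simp only [r]; field_simp
  have hsum : Summable fun k => F k (b k) :=
    Summable.of_norm_bounded summable_geometric_two (fun k => hFb k)
  set c : X := ∑' k, F k (b k) with hc
  have hcs : HasSum (fun k => F k (b k)) c := hsum.hasSum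
  have hc2 : ‖c‖ ≤ 2 := by
    rw [hc, ← tsum_geometric_two]
    exact tsum_of_norm_bounded summable_geometric_two.hasSum (fun k => hFb k)
  have hmem : ∀ k, E k c - F k (b k) ∈ J := by
    intro k
    have h1 : HasSum (fun j => E k (F j (b j))) (E k c) := (E k).hasSum hcs
    have h2 : HasSum (fun j => if j = k then F k (b k) else 0) (F k (b k)) := hasSum_ite_eq k _
    have h3 := h1.sub h2
    have hterm : ∀ j, E k (F j (b j)) - (if j = k then F k (b k) else 0) ∈ J := by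
      intro j
      split_ifs with hj
      · subst hj; exact hEE j (b j)
      · rw [sub_zero]; exact hEF k j hj (b j)
    exact hJ.mem_of_tendsto h3 (Eventually.of_forall fun s => J.sum_mem fun j _ => hterm j)
  have hfin : ∀ k : ℕ, (k : ℝ) < ‖T c‖ := by
    intro k
    have h1 : T (F k (b k)) = T (E k c) - T (E k c - F k (b k)) := by
      rw [← map_sub]; congr 1; abel
    have h2 : ‖E k c - F k (b k)‖ ≤ ‖E k‖ * 2 + 1 := by
      calc ‖E k c - F k (b k)‖ ≤ ‖E k c‖ + ‖F k (b k)‖ := norm_sub_le _ _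
        _ ≤ ‖E k‖ * ‖c‖ + 1 := by
            gcongr
            · exact (E k).le_opNorm _
            · exact (hFb k).trans (pow_le_one₀ (by norm_num) (by norm_num))
        _ ≤ ‖E k‖ * 2 + 1 := by gcongr
    have h3 : ‖T (F k (b k))‖ ≤ |C k| * (‖T c‖ + 2) + |M| * (‖E k‖ * 2 + 1) := by
      rw [h1]
      calc ‖T (E k c) - T (E k c - F k (b k))‖
          ≤ ‖T (E k c)‖ + ‖T (E k c - F k (b k))‖ := norm_sub_le _ _
        _ ≤ C k * (‖T c‖ + ‖c‖) + M * ‖E k c - F k (b k)‖ :=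
            add_le_add (hC k c) (hM _ (hmem k))
        _ ≤ |C k| * (‖T c‖ + 2) + |M| * (‖E k‖ * 2 + 1) := by
            gcongr
            · exact le_abs_self _
            · exact le_abs_self _
    have h4 := (hb2 k).trans_le h3
    have h5 : (k : ℝ) * (|C k| + 1) < |C k| * ‖T c‖ := by
      simp only [Rk] at h4
      nlinarith
    have h6 : |C k| * ‖T c‖ ≤ (|C k| + 1) * ‖T c‖ := by
      nlinarith [norm_nonneg (T c)]
    have h7 : (|C k| + 1) * (k : ℝ) < (|C k| + 1) * ‖T c‖ := by linarith [mul_comm (k : ℝ) (|C k| + 1)]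
    exact lt_of_mul_lt_mul_left h7 (by positivity)
  obtain ⟨n, hn⟩ := exists_nat_gt ‖T c‖
  exact absurd (hfin n) (not_lt.mpr hn.le)

end Pool.Agent.Y324.AC
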