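import Mathlib

/-!
Closed two-sided ideals of C*-algebras: functional calculus modulo the ideal, self-adjointness,
factorisation.
-/

set_option autoImplicit false

open Filter Topology

namespace Pool.Agent.Y324.AC

variable {A : Type*} [CStarAlgebra A]

/-- a closed two-sided ideal, given as a submodule -/
structure CI (J : Submodule ℂ A) : Prop where
  l : ∀ a x : A, x ∈ J → a * x ∈ J
  r : ∀ a x : A, x ∈ J → x * a ∈ J
  c : IsClosed (J : Set A)

variable {J : Submodule ℂ A}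

/-- functions of `h` modulo the ideal -/
lemma CI.exists_set (hJ : CI J) (h : A) (hh : IsSelfAdjoint h) :
    ∃ S : Set ℝ, S ⊆ spectrum ℝ h ∧ ∀ f : ℝ → ℝ, ContinuousOn f (spectrum ℝ h) →
      (cfc f h ∈ J ↔ ∀ t ∈ S, f t = 0) := by
  let φ : C(spectrum ℝ h, ℝ) →⋆ₐ[ℝ] A := cfcHom hh
  have hφ : Continuous φ := (cfcHom_isClosedEmbedding hh).continuous
  let K : Ideal C(spectrum ℝ h, ℝ) :=
    { carrier := {f | φ f ∈ J}
      add_mem' := by
        intro a b ha hb
        simp only [Set.mem_setOf_eq, map_add] at *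
        exact J.add_mem ha hb
      zero_mem' := by simp
      smul_mem' := by
        intro c x hx
        simp only [Set.mem_setOf_eq, smul_eq_mul, map_mul] at *
        exact hJ.l _ _ hx }
  have hK : IsClosed (K : Set C(spectrum ℝ h, ℝ)) := hJ.c.preimage hφ
  have hS := ContinuousMap.idealOfSet_ofIdeal_isClosed hK
  refine ⟨(fun x : spectrum ℝ h => (x : ℝ)) '' (ContinuousMap.setOfIdeal K)ᶜ, ?_, ?_⟩
  · rintro _ ⟨x, _, rfl⟩
    exact x.2
  · intro f hf
    have h1 : cfc f h = φ ⟨_, hf.restrict⟩ := cfc_apply f h hh hf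
    have h2 : cfc f h ∈ J ↔ (⟨_, hf.restrict⟩ : C(spectrum ℝ h, ℝ)) ∈ K := by
      rw [h1]; rfl
    have h4 : (⟨_, hf.restrict⟩ : C(spectrum ℝ h, ℝ)) ∈ K ↔
        (⟨_, hf.restrict⟩ : C(spectrum ℝ h, ℝ)) ∈
          ContinuousMap.idealOfSet ℝ (ContinuousMap.setOfIdeal K) := by rw [hS]
    rw [h2, h4, ContinuousMap.mem_idealOfSet]
    constructor
    · rintro h3 _ ⟨x, hx, rfl⟩
      exact h3 hx
    · intro h3 x hx
      exact h3 _ ⟨x, hx, rfl⟩

lemma CI.cfc_mem (hJ : CI J) {h : A} (hh : IsSelfAdjoint h) (hm : h ∈ J) {f : ℝ → ℝ}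
    (hf : ContinuousOn f (spectrum ℝ h)) (h0 : f 0 = 0) : cfc f h ∈ J := by
  obtain ⟨S, hS, h1⟩ := hJ.exists_set h hh
  rw [h1 f hf]
  have h2 : cfc (fun t : ℝ => t) h ∈ J := by rwa [cfc_id' ℝ h hh]
  rw [h1 (fun t : ℝ => t) continuousOn_id] at h2
  intro t ht
  rw [h2 t ht, h0]

lemma aux_ineq {t ε : ℝ} (ht : 0 ≤ t) (hε : 0 < ε) :
    (1 - |t| / (|t| + ε)) * t * (1 - |t| / (|t| + ε)) ≤ ε := by
  rw [abs_of_nonneg ht]
  have h1 : 0 < t + ε := by linarith
  have h2 : 1 - t / (t + ε) = ε / (t + ε) := by field_simp; ring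
  rw [h2]
  have h3 : ε / (t + ε) * t * (ε / (t + ε)) = ε * (t / (t + ε)) * (ε / (t + ε)) := by ring
  rw [h3]
  have h4 : t / (t + ε) ≤ 1 := by rw [div_le_one h1]; linarith
  have h5 : ε / (t + ε) ≤ 1 := by rw [div_le_one h1]; linarith
  have h6 : 0 ≤ t / (t + ε) := by positivity
  have h7 : 0 ≤ ε / (t + ε) := by positivity
  calc ε * (t / (t + ε)) * (ε / (t + ε)) ≤ ε * 1 * 1 := by gcongr
    _ = ε := by ring

lemma CI.mem_of_star_mul (hJ : CI J) {x : A} (hx : star x * x ∈ J) : x ∈ J := by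
  have hsa : IsSelfAdjoint (star x * x) := IsSelfAdjoint.star_mul_self x
  rw [← SetLike.mem_coe, ← hJ.c.closure_eq, Metric.mem_closure_iff]
  intro ε hε
  set δ : ℝ := (ε / 2) ^ 2 with hδ
  have hδ0 : 0 < δ := by positivity
  let g : ℝ → ℝ := fun t => |t| / (|t| + δ)
  have hg : Continuous g := by
    refine Continuous.div (by fun_prop) (by fun_prop) fun t => ?_
    positivity
  have hGm : cfc g (star x * x) ∈ J := hJ.cfc_mem hsa hx hg.continuousOn (by simp [g])
  refine ⟨x * cfc g (star x * x), hJ.l _ _ hGm, ?_⟩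
  have hG : IsSelfAdjoint (cfc g (star x * x)) := cfc_predicate g (star x * x)
  have h1 : star (x - x * cfc g (star x * x)) * (x - x * cfc g (star x * x)) =
      cfc (fun t => (1 - g t) * t * (1 - g t)) (star x * x) := by
    rw [cfc_mul (fun t => (1 - g t) * t) (fun t => 1 - g t) (star x * x)
        (by fun_prop) (by fun_prop),
      cfc_mul (fun t => (1 - g t)) (fun t => t) (star x * x) (by fun_prop) (by fun_prop),
      cfc_sub (fun _ => (1 : ℝ)) g (star x * x) (by fun_prop) hg.continuousOn,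
      cfc_const_one ℝ (star x * x), cfc_id' ℝ (star x * x)]
    rw [star_sub, star_mul, hG.star_eq]
    noncomm_ring
  have h2 : ‖x - x * cfc g (star x * x)‖ ^ 2 ≤ δ := by
    rw [sq, ← CStarRing.norm_star_mul_self, h1]
    refine norm_cfc_le hδ0.le fun t ht => ?_
    have ht0 : 0 ≤ t := spectrum_star_mul_self_nonneg t ht
    rw [Real.norm_eq_abs, abs_of_nonneg]
    · exact aux_ineq ht0 hδ0
    · have : (1 - g t) * t * (1 - g t) = (1 - g t) ^ 2 * t := by ring
      rw [this]; positivity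
  rw [dist_eq_norm]
  have h3 : ‖x - x * cfc g (star x * x)‖ ≤ ε / 2 := by
    refine le_of_sq_le_sq ?_ (by positivity)
    simpa [hδ] using h2
  linarith

lemma CI.star_mem (hJ : CI J) {x : A} (hx : x ∈ J) : star x ∈ J := by
  refine hJ.mem_of_star_mul ?_
  rw [star_star]
  exact hJ.r _ _ hx

lemma abs_le_norm {x : A} (hs : IsSelfAdjoint x) {t : ℝ} (ht : t ∈ spectrum ℝ x) :
    ‖t‖ ≤ ‖x‖ := by
  have := norm_apply_le_norm_cfc (fun t : ℝ => t) x ht
  rwa [cfc_id' ℝ x hs] at this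

/-- decomposition of a self-adjoint element of the ideal -/
lemma CI.exists_sq (hJ : CI J) {x : A} (hx : x ∈ J) (hs : IsSelfAdjoint x) :
    ∃ b c : A, b ∈ J ∧ c ∈ J ∧ x = b * b - c * c ∧ ‖b‖ * ‖b‖ ≤ ‖x‖ ∧ ‖c‖ * ‖c‖ ≤ ‖x‖ := by
  refine ⟨cfc Real.sqrt x, cfc (fun t => Real.sqrt (-t)) x,
    hJ.cfc_mem hs hx Real.continuous_sqrt.continuousOn (by simp),
    hJ.cfc_mem hs hx (by fun_prop) (by simp), ?_, ?_, ?_⟩
  · rw [← cfc_mul Real.sqrt Real.sqrt x, ← cfc_mul (fun t => Real.sqrt (-t))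
      (fun t => Real.sqrt (-t)) x (by fun_prop) (by fun_prop),
      ← cfc_sub _ _ x (by fun_prop) (by fun_prop)]
    conv_lhs => rw [← cfc_id' ℝ x hs]
    congr 1
    funext t
    rcases le_total 0 t with h | h
    · rw [Real.mul_self_sqrt h, Real.sqrt_eq_zero_of_nonpos (by linarith : -t ≤ 0)]
      ring
    · rw [Real.mul_self_sqrt (by linarith : 0 ≤ -t), Real.sqrt_eq_zero_of_nonpos h]
      ring
  all_goals
    rw [← sq, ← Real.le_sqrt (norm_nonneg _) (norm_nonneg _)]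
  · refine norm_cfc_le (Real.sqrt_nonneg _) fun t ht => ?_
    rw [Real.norm_eq_abs, abs_of_nonneg (Real.sqrt_nonneg _)]
    refine Real.sqrt_le_sqrt ?_
    calc t ≤ |t| := le_abs_self t
      _ = ‖t‖ := rfl
      _ ≤ ‖x‖ := abs_le_norm hs ht
  · refine norm_cfc_le (Real.sqrt_nonneg _) fun t ht => ?_
    rw [Real.norm_eq_abs, abs_of_nonneg (Real.sqrt_nonneg _)]
    refine Real.sqrt_le_sqrt ?_
    calc -t ≤ |t| := neg_le_abs t
      _ = ‖t‖ := rfl
      _ ≤ ‖x‖ := abs_le_norm hs ht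

end Pool.Agent.Y324.AC
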