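import Pool.Agent.Y324.AC.Alg
import Pool.Agent.Y324.AC.Idl
import Pool.Agent.Y324.AC.GH

/-!
Abstract automatic continuity theorem: a linear map `T` on a C*-algebra for which all
multiplications are continuous in the graph norm and whose continuity ideals are closed is
bounded.
-/

set_option autoImplicit false

open Filter Topology

namespace Pool.Agent.Y324.AC

variable {A : Type*} [CStarAlgebra A] {Y : Type*} [NormedAddCommGroup Y] [NormedSpace ℂ Y]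

/-- left continuity ideal -/
def IL (T : A →ₗ[ℂ] Y) : Set A := {a | ∃ M : ℝ, ∀ b, ‖T (a * b)‖ ≤ M * ‖b‖}

/-- right continuity ideal -/
def IR (T : A →ₗ[ℂ] Y) : Set A := {a | ∃ M : ℝ, ∀ b, ‖T (b * a)‖ ≤ M * ‖b‖}

/-- multiplications are bounded in the graph norm -/
structure GM (T : A →ₗ[ℂ] Y) : Prop where
  l : ∀ e, ∃ C : ℝ, ∀ c, ‖T (e * c)‖ ≤ C * (‖T c‖ + ‖c‖)
  r : ∀ e, ∃ C : ℝ, ∀ c, ‖T (c * e)‖ ≤ C * (‖T c‖ + ‖c‖)

variable {T : A →ₗ[ℂ] Y}

lemma IL_mul_left (hP : GM T) {a : A} (x : A) (ha : a ∈ IL T) : x * a ∈ IL T := by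
  obtain ⟨M, hM⟩ := ha
  obtain ⟨C, hC⟩ := hP.l x
  refine ⟨|C| * (|M| + ‖a‖), fun b => ?_⟩
  rw [mul_assoc]
  calc ‖T (x * (a * b))‖ ≤ C * (‖T (a * b)‖ + ‖a * b‖) := hC _
    _ ≤ |C| * (|M| * ‖b‖ + ‖a‖ * ‖b‖) := by
        gcongr
        · exact le_abs_self C
        · exact (hM b).trans (by gcongr; exact le_abs_self M)
        · exact norm_mul_le _ _
    _ = |C| * (|M| + ‖a‖) * ‖b‖ := by ring

lemma IL_mul_right {a : A} (x : A) (ha : a ∈ IL T) : a * x ∈ IL T := by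
  obtain ⟨M, hM⟩ := ha
  refine ⟨|M| * ‖x‖, fun b => ?_⟩
  rw [mul_assoc]
  calc ‖T (a * (x * b))‖ ≤ M * ‖x * b‖ := hM _
    _ ≤ |M| * (‖x‖ * ‖b‖) := by
        gcongr
        · exact le_abs_self M
        · exact norm_mul_le _ _
    _ = |M| * ‖x‖ * ‖b‖ := by ring

lemma IR_mul_right (hP : GM T) {a : A} (x : A) (ha : a ∈ IR T) : a * x ∈ IR T := by
  obtain ⟨M, hM⟩ := ha
  obtain ⟨C, hC⟩ := hP.r x
  refine ⟨|C| * (|M| + ‖a‖), fun b => ?_⟩
  rw [← mul_assoc]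
  calc ‖T (b * a * x)‖ ≤ C * (‖T (b * a)‖ + ‖b * a‖) := hC _
    _ ≤ |C| * (|M| * ‖b‖ + ‖b‖ * ‖a‖) := by
        gcongr
        · exact le_abs_self C
        · exact (hM b).trans (by gcongr; exact le_abs_self M)
        · exact norm_mul_le _ _
    _ = |C| * (|M| + ‖a‖) * ‖b‖ := by ring

lemma IR_mul_left {a : A} (x : A) (ha : a ∈ IR T) : x * a ∈ IR T := by
  obtain ⟨M, hM⟩ := ha
  refine ⟨|M| * ‖x‖, fun b => ?_⟩
  rw [← mul_assoc]
  calc ‖T (b * x * a)‖ ≤ M * ‖b * x‖ := hM _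
    _ ≤ |M| * (‖b‖ * ‖x‖) := by
        gcongr
        · exact le_abs_self M
        · exact norm_mul_le _ _
    _ = |M| * ‖x‖ * ‖b‖ := by ring

/-- the left continuity ideal as a submodule -/
noncomputable def ILm (T : A →ₗ[ℂ] Y) : Submodule ℂ A where
  carrier := IL T
  add_mem' := by
    rintro a b ⟨M, hM⟩ ⟨N, hN⟩
    refine ⟨M + N, fun c => ?_⟩
    rw [add_mul, map_add]
    exact (norm_add_le _ _).trans (by rw [add_mul]; exact add_le_add (hM c) (hN c))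
  zero_mem' := ⟨0, fun b => by simp⟩
  smul_mem' := by
    rintro c a ⟨M, hM⟩
    refine ⟨‖c‖ * M, fun b => ?_⟩
    rw [smul_mul_assoc, map_smul, norm_smul, mul_assoc]
    exact mul_le_mul_of_nonneg_left (hM b) (norm_nonneg c)

/-- the right continuity ideal as a submodule -/
noncomputable def IRm (T : A →ₗ[ℂ] Y) : Submodule ℂ A where
  carrier := IR T
  add_mem' := by
    rintro a b ⟨M, hM⟩ ⟨N, hN⟩
    refine ⟨M + N, fun c => ?_⟩
    rw [mul_add, map_add]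
    exact (norm_add_le _ _).trans (by rw [add_mul]; exact add_le_add (hM c) (hN c))
  zero_mem' := ⟨0, fun b => by simp⟩
  smul_mem' := by
    rintro c a ⟨M, hM⟩
    refine ⟨‖c‖ * M, fun b => ?_⟩
    rw [mul_smul_comm, map_smul, norm_smul, mul_assoc]
    exact mul_le_mul_of_nonneg_left (hM b) (norm_nonneg c)

/-- the continuity ideal -/
noncomputable def JT (T : A →ₗ[ℂ] Y) : Submodule ℂ A := ILm T ⊓ IRm T

lemma mem_JT {a : A} : a ∈ JT T ↔ a ∈ IL T ∧ a ∈ IR T := Iff.rfl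

lemma ci (hP : GM T) (hL : IsClosed (IL T)) (hR : IsClosed (IR T)) : CI (JT T) where
  l a x hx := ⟨IL_mul_left hP a hx.1, IR_mul_left a hx.2⟩
  r a x hx := ⟨IL_mul_right a hx.1, IR_mul_right hP a hx.2⟩
  c := hL.inter hR

lemma gh2 (hP : GM T) (hJ : CI (JT T)) {M : ℝ} (hM : ∀ x ∈ JT T, ‖T x‖ ≤ M * ‖x‖) (e f : ℕ → A)
    (h1 : ∀ k j, j ≠ k → e k * f j ∈ JT T ∧ f j * e k ∈ JT T)
    (h2 : ∀ k, e k * f k - f k ∈ JT T ∧ f k * e k - f k ∈ JT T) : ∃ k, f k ∈ JT T := by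
  by_contra hcon
  push Not at hcon
  have hor : ∀ k, f k ∉ IL T ∨ f k ∉ IR T := by
    intro k
    by_contra h
    push Not at h
    exact hcon k h
  by_cases hinf : {k | f k ∉ IL T}.Infinite
  · let g := hinf.natEmbedding
    choose C hC using fun k => hP.l (e (g k))
    obtain ⟨k, N, hN⟩ := hump T (JT T) hJ.c M hM
      (fun k => ContinuousLinearMap.mul ℂ A (e (g k)))
      (fun k => ContinuousLinearMap.mul ℂ A (f (g k))) C (fun k c => hC k c)
      (by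
        intro k j hjk b
        have hne : ((g j : _) : ℕ) ≠ g k := fun h => hjk (g.injective (Subtype.ext h))
        have := hJ.r b _ (h1 _ _ hne).1
        simpa [mul_assoc] using this)
      (by
        intro k b
        have := hJ.r b _ (h2 (g k)).1
        simpa [sub_mul, mul_assoc] using this)
    exact (g k).2 ⟨N, fun b => by simpa using hN b⟩
  · have hinf' : {k | f k ∉ IR T}.Infinite := by
      have h3 : {k | f k ∉ IL T}ᶜ ⊆ {k | f k ∉ IR T} := by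
        intro k hk
        rcases hor k with h | h
        · exact absurd h hk
        · exact h
      exact ((Set.not_infinite.mp hinf).infinite_compl).mono h3
    let g := hinf'.natEmbedding
    choose C hC using fun k => hP.r (e (g k))
    obtain ⟨k, N, hN⟩ := hump T (JT T) hJ.c M hM
      (fun k => (ContinuousLinearMap.mul ℂ A).flip (e (g k)))
      (fun k => (ContinuousLinearMap.mul ℂ A).flip (f (g k))) C (fun k c => hC k c)
      (by
        intro k j hjk b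
        have hne : ((g j : _) : ℕ) ≠ g k := fun h => hjk (g.injective (Subtype.ext h))
        have := hJ.l b _ (h1 _ _ hne).2
        simpa [mul_assoc] using this)
      (by
        intro k b
        have := hJ.l b _ (h2 (g k)).2
        simpa [mul_sub, mul_assoc] using this)
    exact (g k).2 ⟨N, fun b => by simpa using hN b⟩

theorem bilin {E Y : Type*} [NormedAddCommGroup E] [NormedSpace ℂ E] [CompleteSpace E]
    [NormedAddCommGroup Y] [NormedSpace ℂ Y] [CompleteSpace Y] (B : E →ₗ[ℂ] E →ₗ[ℂ] Y)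
    (h1 : ∀ a, ∃ M : ℝ, ∀ b, ‖B a b‖ ≤ M * ‖b‖) (h2 : ∀ b, ∃ M : ℝ, ∀ a, ‖B a b‖ ≤ M * ‖a‖) :
    ∃ M : ℝ, 0 ≤ M ∧ ∀ a b, ‖B a b‖ ≤ M * ‖a‖ * ‖b‖ := by
  let Φ : E →ₗ[ℂ] (E →L[ℂ] Y) :=
    { toFun := fun a => LinearMap.mkContinuousOfExistsBound (B a) (h1 a)
      map_add' := fun a b => by ext c; simp
      map_smul' := fun r a => by ext c; simp }
  have happ : ∀ a b, Φ a b = B a b := fun a b => rfl
  have hcont : Continuous Φ := by
    refine Φ.continuous_of_seq_closed_graph fun u x y hu hy => ?_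
    ext b
    have h1 : Tendsto (fun n => Φ (u n) b) atTop (𝓝 (y b)) :=
      ((ContinuousLinearMap.apply ℂ Y b).continuous.tendsto y).comp hy
    have h2 : Tendsto (fun n => Φ (u n) b) atTop (𝓝 (Φ x b)) := by
      obtain ⟨M, hM⟩ := h2 b
      rw [tendsto_iff_norm_sub_tendsto_zero]
      have h3 : Tendsto (fun n => M * ‖u n - x‖) atTop (𝓝 0) := by
        have := (tendsto_iff_norm_sub_tendsto_zero.mp hu).const_mul M
        simpa using this
      refine squeeze_zero (fun n => norm_nonneg _) (fun n => ?_) h3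
      rw [happ, happ, ← LinearMap.sub_apply, ← map_sub]
      exact hM _
    exact tendsto_nhds_unique h1 h2
  let Ψ : E →L[ℂ] (E →L[ℂ] Y) := ⟨Φ, hcont⟩
  exact ⟨‖Ψ‖, norm_nonneg Ψ, fun a b => Ψ.le_opNorm₂ a b⟩

lemma bilinJ {Y : Type*} [NormedAddCommGroup Y] [NormedSpace ℂ Y] [CompleteSpace Y]
    (T : A →ₗ[ℂ] Y) (J : Submodule ℂ A)
    (hJ : IsClosed (J : Set A)) (h1 : ∀ a ∈ J, ∃ M : ℝ, ∀ b, ‖T (a * b)‖ ≤ M * ‖b‖)
    (h2 : ∀ b ∈ J, ∃ M : ℝ, ∀ a, ‖T (a * b)‖ ≤ M * ‖a‖) :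
    ∃ M : ℝ, 0 ≤ M ∧ ∀ a b, a ∈ J → b ∈ J → ‖T (a * b)‖ ≤ M * ‖a‖ * ‖b‖ := by
  have : CompleteSpace J := hJ.completeSpace_coe
  obtain ⟨M, hM0, hM⟩ := bilin (E := J) (Y := Y)
    (LinearMap.mk₂ ℂ (fun a b : J => T ((a : A) * b)) (by intros; simp [add_mul])
      (by intros; simp) (by intros; simp [mul_add]) (by intros; simp))
    (fun a => by obtain ⟨M, hM⟩ := h1 a a.2; exact ⟨M, fun b => hM b⟩)
    (fun b => by obtain ⟨M, hM⟩ := h2 b b.2; exact ⟨M, fun b => hM b⟩)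
  exact ⟨M, hM0, fun a b ha hb => hM ⟨a, ha⟩ ⟨b, hb⟩⟩

variable [CompleteSpace Y]

lemma bdJ (hJ : CI (JT T)) : ∃ M : ℝ, ∀ x ∈ JT T, ‖T x‖ ≤ M * ‖x‖ := by
  obtain ⟨N, hN0, hb⟩ := bilinJ T (JT T) hJ.c (fun a ha => ha.1) (fun b hb => hb.2)
  have hsa : ∀ x ∈ JT T, IsSelfAdjoint x → ‖T x‖ ≤ 2 * N * ‖x‖ := by
    intro x hx hs
    obtain ⟨b, c, hbm, hcm, hx', h1, h2⟩ := hJ.exists_sq hx hs
    have h3 : T x = T (b * b) - T (c * c) := by rw [← map_sub, ← hx']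
    rw [h3]
    calc ‖T (b * b) - T (c * c)‖ ≤ ‖T (b * b)‖ + ‖T (c * c)‖ := norm_sub_le _ _
      _ ≤ N * ‖b‖ * ‖b‖ + N * ‖c‖ * ‖c‖ := add_le_add (hb _ _ hbm hbm) (hb _ _ hcm hcm)
      _ = N * (‖b‖ * ‖b‖) + N * (‖c‖ * ‖c‖) := by ring
      _ ≤ N * ‖x‖ + N * ‖x‖ := by gcongr
      _ = 2 * N * ‖x‖ := by ring
  refine ⟨4 * N, fun x hx => ?_⟩
  have hst := hJ.star_mem hx
  have h1 := hsa (x + star x) ((JT T).add_mem hx hst) (IsSelfAdjoint.add_star_self x)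
  have h2 := hsa (Complex.I • (x - star x)) ((JT T).smul_mem _ ((JT T).sub_mem hx hst)) (by
    rw [isSelfAdjoint_iff, star_smul, star_sub, star_star]
    simp only [RCLike.star_def, Complex.conj_I, neg_smul, smul_sub]
    abel)
  have h3 : (2 : ℂ) • x = (x + star x) - Complex.I • (Complex.I • (x - star x)) := by
    rw [smul_smul, Complex.I_mul_I, two_smul, neg_one_smul]
    abel
  have h4 : ‖T ((2 : ℂ) • x)‖ ≤ 8 * N * ‖x‖ := by
    rw [h3, map_sub, map_smul]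
    have n1 : ‖x + star x‖ ≤ 2 * ‖x‖ := by
      calc ‖x + star x‖ ≤ ‖x‖ + ‖star x‖ := norm_add_le _ _
        _ = 2 * ‖x‖ := by rw [norm_star]; ring
    have n2 : ‖Complex.I • (x - star x)‖ ≤ 2 * ‖x‖ := by
      rw [norm_smul, Complex.norm_I, one_mul]
      calc ‖x - star x‖ ≤ ‖x‖ + ‖star x‖ := norm_sub_le _ _
        _ = 2 * ‖x‖ := by rw [norm_star]; ring
    calc ‖T (x + star x) - Complex.I • T (Complex.I • (x - star x))‖
        ≤ ‖T (x + star x)‖ + ‖Complex.I • T (Complex.I • (x - star x))‖ := norm_sub_le _ _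
      _ = ‖T (x + star x)‖ + ‖T (Complex.I • (x - star x))‖ := by
          rw [norm_smul, Complex.norm_I, one_mul]
      _ ≤ 2 * N * (2 * ‖x‖) + 2 * N * (2 * ‖x‖) :=
          add_le_add (h1.trans (by gcongr)) (h2.trans (by gcongr))
      _ = 8 * N * ‖x‖ := by ring
  rw [map_smul, norm_smul] at h4
  norm_num at h4
  linarith

end Pool.Agent.Y324.AC
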