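import Mathlib

/-!
A complex star algebra in which every self-adjoint element has an eigenprojection and in which
there is no infinite sequence of orthogonal projections is finite dimensional.
-/

set_option autoImplicit false

namespace Pool.Agent.Y324.AC

variable {R : Type*} [Ring R] [Algebra ℂ R] [StarRing R] [StarModule ℂ R]

def Pj (p : R) : Prop := star p = p ∧ p * p = p

def Mn (p : R) : Prop := Pj p ∧ p ≠ 0 ∧ ∀ q : R, Pj q → p * q = q → q = 0 ∨ q = p

def lt (q p : R) : Prop := Pj q ∧ Pj p ∧ p * q = q ∧ q ≠ p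

lemma Pj.swap {p q : R} (hp : Pj p) (hq : Pj q) (h : p * q = q) : q * p = q := by
  have := congrArg star h
  rwa [star_mul, hp.1, hq.1] at this

lemma Pj.sub {p q : R} (hp : Pj p) (hq : Pj q) (h : p * q = q) : Pj (p - q) := by
  have h2 := hp.swap hq h
  refine ⟨by rw [star_sub, hp.1, hq.1], ?_⟩
  rw [mul_sub, sub_mul, sub_mul, hp.2, h, h2, hq.2]
  abel

lemma wf (horth : ¬ ∃ p : ℕ → R, (∀ n, star (p n) = p n ∧ p n * p n = p n ∧ p n ≠ 0) ∧
    ∀ m n, m ≠ n → p m * p n = 0) : WellFounded (lt : R → R → Prop) := by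
  rw [wellFounded_iff_isEmpty_descending_chain]
  refine ⟨fun ⟨f, hf⟩ => horth ?_⟩
  have hP : ∀ n, Pj (f n) := fun n => (hf n).2.1
  have hle : ∀ m k, f m * f (m + k) = f (m + k) := by
    intro m k
    induction k with
    | zero => exact (hP m).2
    | succ k ih =>
      have h1 : f (m + k) * f (m + k + 1) = f (m + k + 1) := (hf (m + k)).2.2.1
      calc f m * f (m + (k + 1)) = f m * (f (m + k) * f (m + k + 1)) := by rw [h1]; rfl
        _ = (f m * f (m + k)) * f (m + k + 1) := by rw [mul_assoc]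
        _ = f (m + (k + 1)) := by rw [ih, h1]; rfl
  have hle' : ∀ m n, m ≤ n → f m * f n = f n := by
    intro m n h
    obtain ⟨k, rfl⟩ := Nat.exists_eq_add_of_le h
    exact hle m k
  have key : ∀ m n, m < n → (f m - f (m + 1)) * (f n - f (n + 1)) = 0 := by
    intro m n h
    rw [sub_mul, mul_sub, mul_sub, hle' m n h.le, hle' m (n + 1) (by omega),
      hle' (m + 1) n h, hle' (m + 1) (n + 1) (by omega)]
    abel
  have hd : ∀ n, Pj (f n - f (n + 1)) := fun n => (hP n).sub (hP (n + 1)) (hf n).2.2.1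
  refine ⟨fun n => f n - f (n + 1), fun n => ⟨(hd n).1, (hd n).2, ?_⟩, ?_⟩
  · intro h0
    exact (hf n).2.2.2 (sub_eq_zero.mp h0).symm
  · intro m n hmn
    rcases lt_or_gt_of_ne hmn with h | h
    · exact key m n h
    · have := congrArg star (key n m h)
      rwa [star_mul, (hd m).1, (hd n).1, star_zero] at this

lemma exists_min (hw : WellFounded (lt : R → R → Prop)) (p : R) (hp : Pj p) (h0 : p ≠ 0) :
    ∃ m, Mn m ∧ p * m = m := by
  induction p using hw.induction with
  | _ p ih =>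
    by_cases h : Mn p
    · exact ⟨p, h, hp.2⟩
    · have : ∃ q : R, Pj q ∧ p * q = q ∧ ¬ (q = 0 ∨ q = p) := by
        by_contra hc
        refine h ⟨hp, h0, fun q hq hpq => ?_⟩
        by_contra hn
        exact hc ⟨q, hq, hpq, hn⟩
      obtain ⟨q, hq, hpq, hn⟩ := this
      rw [not_or] at hn
      obtain ⟨m, hm, hqm⟩ := ih q ⟨hq, hp, hpq, hn.2⟩ hq hn.1
      exact ⟨m, hm, by rw [← hqm, ← mul_assoc, hpq]⟩

lemma exists_sum (hw : WellFounded (lt : R → R → Prop)) (p : R) (hp : Pj p) :
    ∃ l : List R, (∀ q ∈ l, Mn q) ∧ p = l.sum := by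
  induction p using hw.induction with
  | _ p ih =>
    by_cases h0 : p = 0
    · exact ⟨[], by simp, by simp [h0]⟩
    · obtain ⟨m, hm, hpm⟩ := exists_min hw p hp h0
      have hs := hp.sub hm.1 hpm
      have hlt : lt (p - m) p := by
        refine ⟨hs, hp, ?_, ?_⟩
        · rw [mul_sub, hp.2, hpm]
        · intro h
          exact hm.2.1 (by simpa using h)
      obtain ⟨l, hl, hsum⟩ := ih (p - m) hlt hs
      refine ⟨m :: l, ?_, ?_⟩
      · intro q hq
        rcases List.mem_cons.mp hq with rfl | hq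
        · exact hm
        · exact hl q hq
      · rw [List.sum_cons, ← hsum]; abel

lemma corner_sa (heig : ∀ h : R, star h = h → h ≠ 0 → ∃ (c : ℂ) (q : R), c ≠ 0 ∧ q ≠ 0 ∧
    star q = q ∧ q * q = q ∧ h * q = c • q) {q y : R} (hq : Mn q) (hy : star y = y)
    (h1 : q * y = y) (h2 : y * q = y) : ∃ c : ℂ, y = c • q := by
  by_cases h0 : y = 0
  · exact ⟨0, by simp [h0]⟩
  obtain ⟨c, e, hc, he0, hes, hee, hye⟩ := heig y hy h0
  have h3 : q * e = e := by
    have h4 : e = c⁻¹ • (y * e) := by rw [hye, smul_smul, inv_mul_cancel₀ hc, one_smul]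
    calc q * e = q * (c⁻¹ • (y * e)) := by rw [← h4]
      _ = c⁻¹ • ((q * y) * e) := by rw [mul_smul_comm, mul_assoc]
      _ = e := by rw [h1, ← h4]
  rcases hq.2.2 e ⟨hes, hee⟩ h3 with h | h
  · exact absurd h he0
  · exact ⟨c, by rw [← h, ← hye, h, h2]⟩

lemma corner (heig : ∀ h : R, star h = h → h ≠ 0 → ∃ (c : ℂ) (q : R), c ≠ 0 ∧ q ≠ 0 ∧
    star q = q ∧ q * q = q ∧ h * q = c • q) {q y : R} (hq : Mn q)
    (h1 : q * y = y) (h2 : y * q = y) : ∃ c : ℂ, y = c • q := by
  have hs1 : q * star y = star y := by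
    have := congrArg star h2
    rwa [star_mul, hq.1.1] at this
  have hs2 : star y * q = star y := by
    have := congrArg star h1
    rwa [star_mul, hq.1.1] at this
  obtain ⟨c, hc⟩ := corner_sa heig (y := y + star y) hq (by rw [star_add, star_star]; abel)
    (by rw [mul_add, h1, hs1]) (by rw [add_mul, h2, hs2])
  obtain ⟨d, hd⟩ := corner_sa heig (y := Complex.I • (y - star y)) hq
    (by
      rw [star_smul, star_sub, star_star]
      simp only [RCLike.star_def, Complex.conj_I, neg_smul, smul_sub]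
      abel)
    (by rw [mul_smul_comm, mul_sub, h1, hs1]) (by rw [smul_mul_assoc, sub_mul, h2, hs2])
  have hd' : y - star y = -(Complex.I * d) • q := by
    rw [neg_smul, mul_smul, ← hd, smul_smul, Complex.I_mul_I]
    simp
  refine ⟨(1 / 2 : ℂ) * (c - Complex.I * d), ?_⟩
  rw [mul_smul, sub_smul, sub_eq_add_neg, ← neg_smul, ← hc, ← hd']
  have : y + star y + (y - star y) = (2 : ℂ) • y := by rw [two_smul]; abel
  rw [this, smul_smul]
  norm_num

lemma line (hprop : ∀ x : R, star x * x = 0 → x = 0)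
    (heig : ∀ h : R, star h = h → h ≠ 0 → ∃ (c : ℂ) (q : R), c ≠ 0 ∧ q ≠ 0 ∧
    star q = q ∧ q * q = q ∧ h * q = c • q) {p q : R} (hp : Mn p) (hq : Mn q) :
    ∃ v : R, ∀ y : R, p * y = y → y * q = y → ∃ c : ℂ, y = c • v := by
  by_cases hx : ∃ x : R, p * x = x ∧ x * q = x ∧ x ≠ 0
  · obtain ⟨x, h1, h2, h0⟩ := hx
    refine ⟨x, fun y hy1 hy2 => ?_⟩
    have hs1 : q * star x = star x := by
      have := congrArg star h2
      rwa [star_mul, hq.1.1] at this
    have hs2 : star x * p = star x := by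
      have := congrArg star h1
      rwa [star_mul, hp.1.1] at this
    obtain ⟨c, hc⟩ := corner heig (y := x * star x) hp (by rw [← mul_assoc, h1])
      (by rw [mul_assoc, hs2])
    obtain ⟨d, hd⟩ := corner heig (y := star x * y) hq (by rw [← mul_assoc, hs1])
      (by rw [mul_assoc, hy2])
    have hc0 : c ≠ 0 := by
      intro hc0
      rw [hc0, zero_smul] at hc
      have h3 := hprop (star x) (by rw [star_star]; exact hc)
      exact h0 (by simpa using h3)
    have h4 : c • y = d • x := by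
      calc c • y = (c • p) * y := by rw [smul_mul_assoc, hy1]
        _ = x * (star x * y) := by rw [← hc, mul_assoc]
        _ = d • x := by rw [hd, mul_smul_comm, h2]
    refine ⟨c⁻¹ * d, ?_⟩
    rw [mul_smul, ← h4, smul_smul, inv_mul_cancel₀ hc0, one_smul]
  · refine ⟨0, fun y hy1 hy2 => ⟨0, ?_⟩⟩
    rw [zero_smul]
    by_contra h
    exact hx ⟨y, hy1, hy2, h⟩

theorem fd (hprop : ∀ x : R, star x * x = 0 → x = 0)
    (heig : ∀ h : R, star h = h → h ≠ 0 → ∃ (c : ℂ) (q : R), c ≠ 0 ∧ q ≠ 0 ∧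
      star q = q ∧ q * q = q ∧ h * q = c • q)
    (horth : ¬ ∃ p : ℕ → R, (∀ n, star (p n) = p n ∧ p n * p n = p n ∧ p n ≠ 0) ∧
      ∀ m n, m ≠ n → p m * p n = 0) : FiniteDimensional ℂ R := by
  classical
  obtain ⟨l, hl, hsum⟩ := exists_sum (wf horth) (1 : R) ⟨star_one R, one_mul 1⟩
  have hv : ∀ p q : R, ∃ v : R, Mn p → Mn q → ∀ y : R, p * y = y → y * q = y →
      ∃ c : ℂ, y = c • v := by
    intro p q
    by_cases hp : Mn p
    · by_cases hq : Mn q
      · obtain ⟨v, hv⟩ := line hprop heig hp hq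
        exact ⟨v, fun _ _ => hv⟩
      · exact ⟨0, fun _ h => absurd h hq⟩
    · exact ⟨0, fun h => absurd h hp⟩
  choose v hv using hv
  set S : Set R := Set.image2 v {q | q ∈ l} {q | q ∈ l} with hS
  have hfin : S.Finite := Set.Finite.image2 v l.finite_toSet l.finite_toSet
  have hmem : ∀ p ∈ l, ∀ q ∈ l, ∀ x : R, p * x * q ∈ Submodule.span ℂ S := by
    intro p hp q hq x
    obtain ⟨c, hc⟩ := hv p q (hl p hp) (hl q hq) (p * x * q)
      (by rw [← mul_assoc, ← mul_assoc, (hl p hp).1.2]) (by rw [mul_assoc, (hl q hq).1.2])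
    rw [hc]
    exact Submodule.smul_mem _ _ (Submodule.subset_span ⟨p, hp, q, hq, rfl⟩)
  have h1 : ∀ l' : List R, (∀ q ∈ l', q ∈ l) → ∀ p ∈ l, ∀ x : R,
      p * x * l'.sum ∈ Submodule.span ℂ S := by
    intro l'
    induction l' with
    | nil => intro _ p _ x; simp
    | cons a l' ih =>
      intro h p hp x
      rw [List.sum_cons, mul_add]
      exact Submodule.add_mem _ (hmem p hp a (h a (by simp)) x)
        (ih (fun q hq => h q (by simp [hq])) p hp x)
  have h2 : ∀ l' : List R, (∀ q ∈ l', q ∈ l) → ∀ x : R,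
      l'.sum * x * l.sum ∈ Submodule.span ℂ S := by
    intro l'
    induction l' with
    | nil => intro _ x; simp
    | cons a l' ih =>
      intro h x
      rw [List.sum_cons, add_mul, add_mul]
      exact Submodule.add_mem _ (h1 l (fun q hq => hq) a (h a (by simp)) x)
        (ih (fun q hq => h q (by simp [hq])) x)
  have htop : Submodule.span ℂ S = ⊤ := by
    rw [eq_top_iff]
    intro x _
    have := h2 l (fun q hq => hq) x
    rwa [← hsum, one_mul, mul_one] at this
  exact ⟨Submodule.fg_def.mpr ⟨S, hfin, htop⟩⟩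

end Pool.Agent.Y324.AC
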