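import Pool.Agent.Y324.AC.Fin

/-!
Automatic continuity.
-/

set_option autoImplicit false

open Filter Topology

namespace Pool.Agent.Y324.AC

variable {A : Type*} [CStarAlgebra A] {Y : Type*} [NormedAddCommGroup Y] [NormedSpace ℂ Y]

variable {T : A →ₗ[ℂ] Y}

/-- the ideal of the ring `A` -/
noncomputable def idl {J : Submodule ℂ A} (hJ : CI J) : Ideal A where
  carrier := J
  add_mem' := J.add_mem
  zero_mem' := J.zero_mem
  smul_mem' c x hx := hJ.l c x hx

lemma quot_fd (hP : GM T) (hJ : CI (JT T)) {M : ℝ} (hM : ∀ x ∈ JT T, ‖T x‖ ≤ M * ‖x‖) :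
    FiniteDimensional ℂ (A ⧸ JT T) := by
  let I : Ideal A := idl hJ
  haveI hI : I.IsTwoSided := ⟨fun b h => hJ.r _ _ h⟩
  let π : A →ₐ[ℂ] (A ⧸ I) := Ideal.Quotient.mkₐ ℂ I
  have hπ : Function.Surjective π := Ideal.Quotient.mkₐ_surjective ℂ I
  have hker : ∀ a, π a = 0 ↔ a ∈ JT T := fun a => Ideal.Quotient.eq_zero_iff_mem
  have heq : ∀ a b, π a = π b ↔ a - b ∈ JT T := fun a b => by
    rw [← hker, map_sub, sub_eq_zero]
  let st : (A ⧸ I) → (A ⧸ I) := fun y => π (star (Function.surjInv hπ y))
  have hst : ∀ a, st (π a) = π (star a) := by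
    intro a
    change π (star (Function.surjInv hπ (π a))) = π (star a)
    rw [heq, ← star_sub]
    refine hJ.star_mem ?_
    rw [← heq]
    exact Function.surjInv_eq hπ _
  letI S1 : StarRing (A ⧸ I) :=
    { star := st
      star_involutive := by
        intro y
        obtain ⟨a, rfl⟩ := hπ y
        have h1 : st (st (π a)) = π a := by rw [hst a, hst (star a), star_star]
        exact h1
      star_mul := by
        intro x y
        obtain ⟨a, rfl⟩ := hπ x
        obtain ⟨b, rfl⟩ := hπ y
        change st (π a * π b) = st (π b) * st (π a)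
        rw [← map_mul, hst, hst, hst, star_mul, map_mul]
      star_add := by
        intro x y
        obtain ⟨a, rfl⟩ := hπ x
        obtain ⟨b, rfl⟩ := hπ y
        change st (π a + π b) = st (π a) + st (π b)
        rw [← map_add, hst, hst, hst, star_add, map_add] }
  have hst' : ∀ a, star (π a) = π (star a) := hst
  letI S2 : StarModule ℂ (A ⧸ I) :=
    ⟨by
      intro r x
      obtain ⟨a, rfl⟩ := hπ x
      rw [← map_smul, hst', hst', star_smul, map_smul]⟩
  have hfd : FiniteDimensional ℂ (A ⧸ I) := by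
    refine fd ?_ ?_ ?_
    · intro x hx
      obtain ⟨a, rfl⟩ := hπ x
      rw [hst', ← map_mul, hker] at hx
      exact (hker a).mpr (hJ.mem_of_star_mul hx)
    · intro x hx hx0
      obtain ⟨a, ha⟩ := hπ x
      let h : A := (1 / 2 : ℂ) • (a + star a)
      have hh : IsSelfAdjoint h := by
        rw [isSelfAdjoint_iff]
        simp only [h, star_smul, star_add, star_star]
        rw [add_comm (star a) a]
        congr 1
        norm_num
      have hxh : π h = x := by
        simp only [h]
        rw [map_smul, map_add, ← hst', ha, hx, ← two_smul ℂ x, smul_smul]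
        norm_num
      have h0 : h ∉ JT T := by
        rw [← hker, hxh]; exact hx0
      obtain ⟨c, q, hc, hq0, hqs, hqq, hhq⟩ := exists_eig hP hJ hM hh h0
      refine ⟨c, π q, by exact_mod_cast hc, by rwa [Ne, hker], by rw [hst', hqs], ?_, ?_⟩
      · rw [← map_mul, heq]; exact hqq
      · rw [← hxh, ← map_mul, ← map_smul, heq]; exact hhq
    · rintro ⟨p, hp1, hp2⟩
      choose a ha using fun n => hπ (p n)
      obtain ⟨k, hk⟩ := gh2 hP hJ hM a a
        (by
          intro k j hjk
          constructor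
          · rw [← hker, map_mul, ha, ha]; exact hp2 k j (Ne.symm hjk)
          · rw [← hker, map_mul, ha, ha]; exact hp2 j k hjk)
        (by
          intro k
          constructor <;>
          · rw [← heq, map_mul, ha]; exact (hp1 k).2.1)
      rw [← hker, ha] at hk
      exact (hp1 k).2.2 hk
  let ψ : (A ⧸ JT T) →ₗ[ℂ] (A ⧸ I) := (JT T).liftQ π.toLinearMap (fun a ha => (hker a).mpr ha)
  have hψ : Function.Injective ψ := by
    rw [← LinearMap.ker_eq_bot, LinearMap.ker_eq_bot']
    intro m hm
    obtain ⟨a, rfl⟩ := Submodule.Quotient.mk_surjective _ m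
    have h1 : π a = 0 := by simpa [ψ] using hm
    rw [Submodule.Quotient.mk_eq_zero]
    exact (hker a).mp h1
  exact FiniteDimensional.of_injective ψ hψ

/-- **Abstract automatic continuity.** -/
theorem auto [CompleteSpace Y] (hP : GM T) (hL : IsClosed (IL T)) (hR : IsClosed (IR T)) :
    ∃ M : ℝ, ∀ x, ‖T x‖ ≤ M * ‖x‖ := by
  have hJ := ci hP hL hR
  obtain ⟨M, hM⟩ := bdJ hJ
  haveI := quot_fd hP hJ hM
  haveI : IsClosed ((JT T : Submodule ℂ A) : Set A) := hJ.c
  obtain ⟨P, hP1⟩ : ((JT T : Submodule ℂ A)).ClosedComplemented :=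
    Submodule.ClosedComplemented.of_finiteDimensional_quotient hJ.c
  -- the map `T ∘ (1 - P)` vanishes on the ideal
  let L : A →ₗ[ℂ] Y := T ∘ₗ (LinearMap.id - (JT T).subtype ∘ₗ P.toLinearMap)
  have hLk : JT T ≤ LinearMap.ker L := by
    intro a ha
    have h1 := hP1 ⟨a, ha⟩
    simp only [L, LinearMap.mem_ker, LinearMap.comp_apply, LinearMap.sub_apply,
      LinearMap.id_apply]
    have h2 : (P a : A) = a := by rw [h1]
    change T (a - (P a : A)) = 0
    rw [h2, sub_self, map_zero]
  let L' : (A ⧸ JT T) →ₗ[ℂ] Y := (JT T).liftQ L hLk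
  have hcont : Continuous L' := LinearMap.continuous_of_finiteDimensional L'
  have hcL : Continuous L := by
    have h3 : (L : A → Y) = fun a => L' ((JT T).mkQ a) := by
      funext a
      simp [L']
    rw [h3]
    exact hcont.comp (JT T).mkQL.continuous
  let Lc : A →L[ℂ] Y := ⟨L, hcL⟩
  refine ⟨‖Lc‖ + |M| * ‖P‖, fun x => ?_⟩
  have h4 : T x = Lc x + T (P x : A) := by
    change T x = T (x - (P x : A)) + T (P x : A)
    rw [← map_add, sub_add_cancel]
  rw [h4, add_mul]
  refine (norm_add_le _ _).trans (add_le_add (Lc.le_opNorm x) ?_)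
  calc ‖T (P x : A)‖ ≤ M * ‖(P x : A)‖ := hM _ (P x).2
    _ ≤ |M| * (‖P‖ * ‖x‖) := by
        gcongr
        · exact le_abs_self M
        · exact P.le_opNorm x
    _ = |M| * ‖P‖ * ‖x‖ := by ring

end Pool.Agent.Y324.AC
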