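import Pool.Agent.Y324.AC.Abs

/-!
The quotient by the continuity ideal is finite dimensional; automatic continuity.
-/

set_option autoImplicit false

open Filter Topology

namespace Pool.Agent.Y324.AC

variable {A : Type*} [CStarAlgebra A] {Y : Type*} [NormedAddCommGroup Y] [NormedSpace ℂ Y]

/-- an infinite set of reals contains an infinite uniformly discrete sequence -/
lemma exists_sep (S : Set ℝ) (hS : S.Infinite) :
    ∃ (s : ℕ → ℝ) (δ : ℕ → ℝ), (∀ n, s n ∈ S) ∧ (∀ n, 0 < δ n) ∧
      ∀ m n, m ≠ n → δ n ≤ |s m - s n| := by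
  haveI : Infinite S := hS.to_subtype
  obtain ⟨U, hU1, hU2, hU3⟩ := exists_seq_infinite_isOpen_pairwise_disjoint S
  choose x hx using fun n => (hU1 n).nonempty
  have hδ : ∀ n, ∃ δ > 0, Metric.ball (x n) δ ⊆ U n := fun n =>
    Metric.isOpen_iff.mp (hU2 n) _ (hx n)
  choose δ hδ0 hδ using hδ
  refine ⟨fun n => x n, δ, fun n => (x n).2, hδ0, fun m n hmn => ?_⟩
  by_contra hlt
  push Not at hlt
  have h1 : x m ∈ Metric.ball (x n) (δ n) := by
    rw [Metric.mem_ball, Subtype.dist_eq, Real.dist_eq]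
    exact hlt
  exact Set.disjoint_left.mp (hU3 hmn) (hx m) (hδ n h1)

/-- tent -/
noncomputable def tent (s δ : ℝ) (t : ℝ) : ℝ := max 0 (1 - |t - s| * (6 / δ))

/-- plateau -/
noncomputable def plat (s δ : ℝ) (t : ℝ) : ℝ := min 1 (max 0 (2 - |t - s| * (6 / δ)))

lemma tent_cont (s δ : ℝ) : Continuous (tent s δ) := by unfold tent; fun_prop

lemma plat_cont (s δ : ℝ) : Continuous (plat s δ) := by unfold plat; fun_prop

lemma plat_tent (s δ t : ℝ) : plat s δ t * tent s δ t = tent s δ t := by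
  unfold plat tent
  rcases le_total (1 - |t - s| * (6 / δ)) 0 with h | h
  · rw [max_eq_left h, mul_zero]
  · have h1 : (1 : ℝ) ≤ max 0 (2 - |t - s| * (6 / δ)) := le_max_of_le_right (by linarith)
    rw [min_eq_left h1, one_mul]

lemma plat_tent_zero {s s' δ δ' : ℝ} (hδ : 0 < δ) (hδ' : 0 < δ') (h : δ ≤ |s - s'|)
    (h' : δ' ≤ |s - s'|) (t : ℝ) : plat s δ t * tent s' δ' t = 0 := by
  unfold plat tent
  rcases le_total (2 - |t - s| * (6 / δ)) 0 with h1 | h1
  · rw [max_eq_left h1]; simp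
  rcases le_total (1 - |t - s'| * (6 / δ')) 0 with h2 | h2
  · rw [max_eq_left h2]; simp
  exfalso
  have h3 : |t - s| * 3 ≤ δ := by
    have : |t - s| * (6 / δ) ≤ 2 := by linarith
    rw [← mul_div_assoc, div_le_iff₀ hδ] at this
    linarith
  have h4 : |t - s'| * 6 ≤ δ' := by
    have : |t - s'| * (6 / δ') ≤ 1 := by linarith
    rw [← mul_div_assoc, div_le_iff₀ hδ'] at this
    linarith
  have h5 : |s - s'| ≤ |t - s| + |t - s'| := by
    have : s - s' = (t - s') - (t - s) := by ring
    rw [this]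
    exact (abs_sub _ _).trans (by linarith)
  linarith

lemma tent_self (s : ℝ) (δ : ℝ) : tent s δ s = 1 := by simp [tent]

variable {T : A →ₗ[ℂ] Y}

/-- the spectrum of a self-adjoint element modulo the continuity ideal is finite -/
lemma set_finite (hP : GM T) (hJ : CI (JT T)) {M : ℝ} (hM : ∀ x ∈ JT T, ‖T x‖ ≤ M * ‖x‖)
    {h : A} {S : Set ℝ} (hSf : ∀ f : ℝ → ℝ, ContinuousOn f (spectrum ℝ h) →
      (cfc f h ∈ JT T ↔ ∀ t ∈ S, f t = 0)) : S.Finite := by
  by_contra hS
  obtain ⟨s, δ, hs, hδ, hsep⟩ := exists_sep S hS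
  obtain ⟨k, hk⟩ := gh2 hP hJ hM (fun n => cfc (plat (s n) (δ n)) h)
    (fun n => cfc (tent (s n) (δ n)) h)
    (by
      intro k j hjk
      have h0 : cfc (plat (s k) (δ k)) h * cfc (tent (s j) (δ j)) h = 0 := by
        rw [← cfc_mul _ _ h (plat_cont _ _).continuousOn (tent_cont _ _).continuousOn]
        have : (fun t => plat (s k) (δ k) t * tent (s j) (δ j) t) = fun _ => (0 : ℝ) := by
          funext t
          refine plat_tent_zero (hδ k) (hδ j) ?_ ?_ t
          · rw [abs_sub_comm]; exact hsep j k hjk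
          · exact hsep k j (Ne.symm hjk)
        rw [this]
        exact cfc_zero ℝ h
      have h0' : cfc (tent (s j) (δ j)) h * cfc (plat (s k) (δ k)) h = 0 := by
        rw [(cfc_commute_cfc _ _ h).eq, h0]
      exact ⟨by rw [h0]; exact zero_mem _, by rw [h0']; exact zero_mem _⟩)
    (by
      intro k
      have h0 : cfc (plat (s k) (δ k)) h * cfc (tent (s k) (δ k)) h =
          cfc (tent (s k) (δ k)) h := by
        rw [← cfc_mul _ _ h (plat_cont _ _).continuousOn (tent_cont _ _).continuousOn]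
        congr 1
        funext t
        exact plat_tent _ _ t
      have h0' : cfc (tent (s k) (δ k)) h * cfc (plat (s k) (δ k)) h =
          cfc (tent (s k) (δ k)) h := by
        rw [(cfc_commute_cfc _ _ h).eq, h0]
      exact ⟨by rw [h0, sub_self]; exact zero_mem _, by rw [h0', sub_self]; exact zero_mem _⟩)
  rw [hSf _ (tent_cont _ _).continuousOn] at hk
  have := hk (s k) (hs k)
  rw [tent_self] at this
  exact one_ne_zero this

/-- eigenprojections modulo the continuity ideal -/
lemma exists_eig (hP : GM T) (hJ : CI (JT T)) {M : ℝ} (hM : ∀ x ∈ JT T, ‖T x‖ ≤ M * ‖x‖)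
    {h : A} (hh : IsSelfAdjoint h) (h0 : h ∉ JT T) :
    ∃ (c : ℝ) (q : A), c ≠ 0 ∧ q ∉ JT T ∧ star q = q ∧ q * q - q ∈ JT T ∧
      h * q - (c : ℂ) • q ∈ JT T := by
  classical
  obtain ⟨S, -, hSf⟩ := hJ.exists_set h hh
  have hfin := set_finite hP hJ hM hSf
  have h1 : ¬ ∀ t ∈ S, t = 0 := by
    intro hc
    apply h0
    have := (hSf (fun t => t) continuousOn_id).mpr hc
    rwa [cfc_id' ℝ h hh] at this
  push Not at h1
  obtain ⟨c, hcS, hc0⟩ := h1
  let q : ℝ → ℝ := fun t => ∏ r ∈ hfin.toFinset.erase c, ((t - r) / (c - r))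
  have hq : Continuous q := by fun_prop
  have hqc : q c = 1 := by
    refine Finset.prod_eq_one fun r hr => ?_
    rw [Finset.mem_erase] at hr
    exact div_self (sub_ne_zero.mpr (Ne.symm hr.1))
  have hq0 : ∀ t ∈ S, t ≠ c → q t = 0 := by
    intro t ht htc
    refine Finset.prod_eq_zero (i := t) ?_ (by simp)
    rw [Finset.mem_erase]
    exact ⟨htc, by simpa using ht⟩
  refine ⟨c, cfc q h, hc0, ?_, cfc_predicate q h, ?_, ?_⟩
  · rw [hSf q hq.continuousOn]
    intro hc
    have := hc c hcS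
    rw [hqc] at this
    exact one_ne_zero this
  · rw [← cfc_mul q q h hq.continuousOn hq.continuousOn,
      ← cfc_sub _ q h (by fun_prop) hq.continuousOn, hSf _ (by fun_prop)]
    intro t ht
    by_cases htc : t = c
    · rw [htc, hqc]; ring
    · rw [hq0 t ht htc]; ring
  · have h2 : h * cfc q h - (c : ℂ) • cfc q h = cfc (fun t => t * q t - c * q t) h := by
      rw [cfc_sub _ _ h (by fun_prop) (by fun_prop), cfc_mul (fun t => t) q h continuousOn_id
        hq.continuousOn, cfc_id' ℝ h hh, cfc_const_mul c q h hq.continuousOn]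
      simp
    rw [h2, hSf _ (by fun_prop)]
    intro t ht
    by_cases htc : t = c
    · rw [htc]; ring
    · rw [hq0 t ht htc]; ring

end Pool.Agent.Y324.AC
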