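import Mathlib

/-!
The Gelfand-Hille theorem: if `N` is quasi-nilpotent and the powers of `1 + N` and of its inverse
have polynomial growth of degree `k`, then `N ^ (k + 1) = 0`.
-/

set_option autoImplicit false

open Filter Topology

namespace Pool.Agent.Y324.AC

variable {B : Type*} [NormedRing B] [NormedAlgebra ℂ B] [CompleteSpace B]

lemma pow_le_choose (n k : ℕ) : ((n : ℝ) + 1) ^ k ≤ k.factorial * ((n + k).choose k : ℝ) := by
  have h : (n + 1) ^ k ≤ k.factorial * (n + k).choose k := by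
    rw [← Nat.ascFactorial_eq_factorial_mul_choose]
    induction k with
    | zero => simp
    | succ k ih =>
      rw [pow_succ, Nat.ascFactorial_succ, mul_comm]
      exact Nat.mul_le_mul (by omega) ih
  exact_mod_cast h

/-- the geometric series with polynomial growth of the powers -/
lemma geom_bound {x : B} {C : ℝ} {k : ℕ} (hC : ∀ n : ℕ, ‖x ^ n‖ ≤ C * ((n : ℝ) + 1) ^ k) {q : ℂ}
    (hq : ‖q‖ < 1) : ∃ S : B, (1 - q • x) * S = 1 ∧ ‖S‖ ≤ C * k.factorial / (1 - ‖q‖) ^ (k + 1) := by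
  have hC0 : 0 ≤ C := by
    have := hC 0
    simp only [pow_zero, Nat.cast_zero, zero_add, one_pow, mul_one] at this
    exact (norm_nonneg _).trans this
  have hq' : ‖(‖q‖ : ℝ)‖ < 1 := by simpa using hq
  have hs := hasSum_choose_mul_geometric_of_norm_lt_one (𝕜 := ℝ) k hq'
  have hs' := hs.mul_left (C * k.factorial)
  have hb : ∀ n : ℕ, ‖(q • x) ^ n‖ ≤ C * k.factorial * (((n + k).choose k : ℝ) * ‖q‖ ^ n) := by
    intro n
    rw [smul_pow, norm_smul, norm_pow]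
    calc ‖q‖ ^ n * ‖x ^ n‖ ≤ ‖q‖ ^ n * (C * ((n : ℝ) + 1) ^ k) := by
          gcongr; exact hC n
      _ ≤ ‖q‖ ^ n * (C * (k.factorial * ((n + k).choose k : ℝ))) := by
          gcongr; exact pow_le_choose n k
      _ = _ := by ring
  have hsum : Summable fun n : ℕ => (q • x) ^ n := Summable.of_norm_bounded hs'.summable hb
  refine ⟨∑' n : ℕ, (q • x) ^ n, hsum.one_sub_mul_tsum_pow, ?_⟩
  have := tsum_of_norm_bounded hs' hb
  refine this.trans (le_of_eq ?_)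
  ring

lemma unit_of {N : B} (hN : spectralRadius ℂ N = 0) (ζ : ℂ) : IsUnit (1 - ζ • N) := by
  refine spectrum.isUnit_one_sub_smul_of_lt_inv_radius ?_
  rw [hN]
  simp

lemma diff_of {N : B} (hN : spectralRadius ℂ N = 0) :
    Differentiable ℂ (fun z : ℂ => Ring.inverse (1 - z • N)) := by
  intro z
  have H₁ : Differentiable ℂ fun w : ℂ => 1 - w • N := (differentiable_id.smul_const N).const_sub 1
  exact DifferentiableAt.comp z (differentiableAt_inverse (unit_of hN z)) H₁.differentiableAt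

lemma inv_eq {N S : B} (hN : spectralRadius ℂ N = 0) {ζ : ℂ} (h : (1 - ζ • N) * S = 1) :
    Ring.inverse (1 - ζ • N) = S := by
  have h1 := Ring.inverse_mul_cancel _ (unit_of hN ζ)
  calc Ring.inverse (1 - ζ • N) = Ring.inverse (1 - ζ • N) * ((1 - ζ • N) * S) := by
        rw [h, mul_one]
    _ = S := by rw [← mul_assoc, h1, one_mul]

lemma norm_sq_sub (s : ℂ) : ‖s + 1 / 2‖ ^ 2 - ‖s - 1 / 2‖ ^ 2 = 2 * s.re := by
  rw [← Complex.normSq_eq_norm_sq, ← Complex.normSq_eq_norm_sq, Complex.normSq_apply,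
    Complex.normSq_apply]
  simp
  ring

lemma real_aux {a b r K : ℝ} {k : ℕ} (ha : 0 < a) (hb : 0 ≤ b) (hr : 0 < r)
    (h : a ^ 2 - b ^ 2 = 2 * r) (hK : 0 ≤ K) :
    a⁻¹ * (K / (1 - b / a) ^ (k + 1)) * (2 * r) ^ (k + 1) = K * a ^ k * (a + b) ^ (k + 1) := by
  have hab : b < a := by nlinarith
  have h1 : 1 - b / a = (a - b) / a := by field_simp
  have h2 : 2 * r = (a - b) * (a + b) := by rw [← h]; ring
  have h3 : (a - b) ≠ 0 := by linarith [hab] |> fun h : (0:ℝ) < a - b => h.ne'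
  rw [h1, h2, div_pow, mul_pow]
  field_simp
  ring

/-- the resolvent bound off the critical line -/
lemma res_bound {N x y : B} (hN : spectralRadius ℂ N = 0) (hx : x = 1 + N) (hxy : x * y = 1)
    (_hyx : y * x = 1) {C : ℝ} {k : ℕ} (hC : ∀ n : ℕ, ‖x ^ n‖ ≤ C * ((n : ℝ) + 1) ^ k)
    (hC' : ∀ n : ℕ, ‖y ^ n‖ ≤ C * ((n : ℝ) + 1) ^ k) (s : ℂ) {R : ℝ} (hR : ‖s‖ ≤ R) :
    ‖Ring.inverse (1 - (s - 1 / 2) • N)‖ * (2 * |s.re|) ^ (k + 1) ≤
      C * k.factorial * (1 + ‖y‖) * (R + 1) ^ k * (2 * (R + 1)) ^ (k + 1) := by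
  have hC0 : 0 ≤ C := by
    have := hC 0
    simp only [pow_zero, Nat.cast_zero, zero_add, one_pow, mul_one] at this
    exact (norm_nonneg _).trans this
  have hR0 : 0 ≤ R := (norm_nonneg _).trans hR
  have hha : ‖s + 1 / 2‖ ≤ R + 1 := by
    calc ‖s + 1 / 2‖ ≤ ‖s‖ + ‖(1 / 2 : ℂ)‖ := norm_add_le _ _
      _ ≤ R + 1 := by norm_num; linarith
  have hhb : ‖s - 1 / 2‖ ≤ R + 1 := by
    calc ‖s - 1 / 2‖ ≤ ‖s‖ + ‖(1 / 2 : ℂ)‖ := norm_sub_le _ _
      _ ≤ R + 1 := by norm_num; linarith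
  have hsq := norm_sq_sub s
  rcases lt_trichotomy s.re 0 with hs | hs | hs
  · -- left half plane
    have hb0 : 0 < ‖s - 1 / 2‖ := by nlinarith [norm_nonneg (s + 1 / 2), norm_nonneg (s - 1 / 2)]
    have hb1 : ‖s + 1 / 2‖ < ‖s - 1 / 2‖ := by
      nlinarith [norm_nonneg (s + 1 / 2), norm_nonneg (s - 1 / 2)]
    have hbne : s - 1 / 2 ≠ 0 := norm_pos_iff.mp hb0
    have hq : ‖(s + 1 / 2) / (s - 1 / 2)‖ < 1 := by
      rw [norm_div, div_lt_one hb0]; exact hb1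
    obtain ⟨S, hS1, hS2⟩ := geom_bound hC' hq
    have hinv : (1 - (s - 1 / 2) • N) * (-(s - 1 / 2)⁻¹ • (y * S)) = 1 := by
      have h1 : 1 - (s - 1 / 2) • N = (-(s - 1 / 2)) • (x * (1 - ((s + 1 / 2) / (s - 1 / 2)) • y)) := by
        rw [mul_sub, mul_one, mul_smul_comm, hxy, hx, smul_sub, smul_smul]
        have : -(s - 1 / 2) * ((s + 1 / 2) / (s - 1 / 2)) = -(s + 1 / 2) := by
          rw [neg_mul, mul_comm, div_mul_cancel₀ _ hbne]
        rw [this, smul_add, neg_smul, neg_smul, neg_smul]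
        have h2 : (s + 1 / 2) • (1 : B) = (s - 1 / 2) • (1 : B) + 1 := by
          rw [show s + 1 / 2 = (s - 1 / 2) + 1 by ring, add_smul, one_smul]
        rw [h2]
        abel
      have hcomm : (1 - ((s + 1 / 2) / (s - 1 / 2)) • y) * y =
          y * (1 - ((s + 1 / 2) / (s - 1 / 2)) • y) := by
        rw [sub_mul, mul_sub, smul_mul_assoc, mul_smul_comm, one_mul, mul_one]
      rw [h1, smul_mul_smul_comm, mul_assoc, ← mul_assoc _ y S, hcomm, mul_assoc y, hS1, mul_one,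
        hxy]
      have : -(s - 1 / 2) * -(s - 1 / 2)⁻¹ = 1 := by
        rw [neg_mul_neg, mul_inv_cancel₀ hbne]
      rw [this, one_smul]
    rw [inv_eq hN hinv, norm_smul, norm_neg, norm_inv, abs_of_neg hs]
    have h5 := real_aux (a := ‖s - 1 / 2‖) (b := ‖s + 1 / 2‖) (r := -s.re)
      (K := C * k.factorial) (k := k) hb0 (norm_nonneg _) (by linarith) (by linarith)
      (by positivity)
    rw [norm_div] at hS2
    have h6 : 0 < 1 - ‖s + 1 / 2‖ / ‖s - 1 / 2‖ := by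
      rw [sub_pos, div_lt_one hb0]; exact hb1
    calc ‖s - 1 / 2‖⁻¹ * ‖y * S‖ * (2 * -s.re) ^ (k + 1)
        ≤ ‖s - 1 / 2‖⁻¹ * (‖y‖ * (C * k.factorial / (1 - ‖s + 1 / 2‖ / ‖s - 1 / 2‖) ^ (k + 1))) *
            (2 * -s.re) ^ (k + 1) := by
          have : 0 ≤ (2 * -s.re) := by linarith
          gcongr
          exact (norm_mul_le _ _).trans (by gcongr)
      _ = ‖y‖ * (‖s - 1 / 2‖⁻¹ * (C * k.factorial / (1 - ‖s + 1 / 2‖ / ‖s - 1 / 2‖) ^ (k + 1)) *
            (2 * -s.re) ^ (k + 1)) := by ring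
      _ = ‖y‖ * (C * k.factorial * ‖s - 1 / 2‖ ^ k * (‖s - 1 / 2‖ + ‖s + 1 / 2‖) ^ (k + 1)) := by
          rw [h5]
      _ ≤ (1 + ‖y‖) * (C * k.factorial * (R + 1) ^ k * (2 * (R + 1)) ^ (k + 1)) := by
          gcongr
          · linarith
          · linarith
      _ = _ := by ring
  · rw [hs, abs_zero, mul_zero, zero_pow (by omega), mul_zero]
    positivity
  · -- right half plane
    have hb0 : 0 < ‖s + 1 / 2‖ := by nlinarith [norm_nonneg (s + 1 / 2), norm_nonneg (s - 1 / 2)]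
    have hb1 : ‖s - 1 / 2‖ < ‖s + 1 / 2‖ := by
      nlinarith [norm_nonneg (s + 1 / 2), norm_nonneg (s - 1 / 2)]
    have hbne : s + 1 / 2 ≠ 0 := norm_pos_iff.mp hb0
    have hq : ‖(s - 1 / 2) / (s + 1 / 2)‖ < 1 := by
      rw [norm_div, div_lt_one hb0]; exact hb1
    obtain ⟨S, hS1, hS2⟩ := geom_bound hC hq
    have hinv : (1 - (s - 1 / 2) • N) * ((s + 1 / 2)⁻¹ • S) = 1 := by
      have h1 : 1 - (s - 1 / 2) • N = (s + 1 / 2) • (1 - ((s - 1 / 2) / (s + 1 / 2)) • x) := by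
        rw [smul_sub, smul_smul]
        have : (s + 1 / 2) * ((s - 1 / 2) / (s + 1 / 2)) = (s - 1 / 2) := by
          rw [mul_comm, div_mul_cancel₀ _ hbne]
        rw [this, hx, smul_add]
        have h2 : (s + 1 / 2) • (1 : B) = (s - 1 / 2) • (1 : B) + 1 := by
          rw [show s + 1 / 2 = (s - 1 / 2) + 1 by ring, add_smul, one_smul]
        rw [h2]
        abel
      rw [h1, smul_mul_smul_comm, hS1, mul_inv_cancel₀ hbne, one_smul]
    rw [inv_eq hN hinv, norm_smul, norm_inv, abs_of_pos hs]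
    have h5 := real_aux (a := ‖s + 1 / 2‖) (b := ‖s - 1 / 2‖) (r := s.re)
      (K := C * k.factorial) (k := k) hb0 (norm_nonneg _) (by linarith) (by linarith)
      (by positivity)
    rw [norm_div] at hS2
    calc ‖s + 1 / 2‖⁻¹ * ‖S‖ * (2 * s.re) ^ (k + 1)
        ≤ ‖s + 1 / 2‖⁻¹ * (C * k.factorial / (1 - ‖s - 1 / 2‖ / ‖s + 1 / 2‖) ^ (k + 1)) *
            (2 * s.re) ^ (k + 1) := by
          gcongr
      _ = C * k.factorial * ‖s + 1 / 2‖ ^ k * (‖s + 1 / 2‖ + ‖s - 1 / 2‖) ^ (k + 1) := by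
          rw [h5]
      _ ≤ C * k.factorial * (R + 1) ^ k * (2 * (R + 1)) ^ (k + 1) := by
          gcongr
          linarith
      _ = (C * k.factorial * 1 * (R + 1) ^ k * (2 * (R + 1)) ^ (k + 1)) := by ring
      _ ≤ _ := by
          gcongr
          linarith [norm_nonneg y]

/-- **Gelfand-Hille.** -/
theorem hille {N x y : B} (hN : spectralRadius ℂ N = 0) (hx : x = 1 + N) (hxy : x * y = 1)
    (hyx : y * x = 1) {C : ℝ} {k : ℕ} (hC : ∀ n : ℕ, ‖x ^ n‖ ≤ C * ((n : ℝ) + 1) ^ k)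
    (hC' : ∀ n : ℕ, ‖y ^ n‖ ≤ C * ((n : ℝ) + 1) ^ k) : N ^ (k + 1) = 0 := by
  have hC0 : 0 ≤ C := by
    have := hC 0
    simp only [pow_zero, Nat.cast_zero, zero_add, one_pow, mul_one] at this
    exact (norm_nonneg _).trans this
  set D : ℝ := C * k.factorial * (1 + ‖y‖) with hD
  have hD0 : 0 ≤ D := by positivity
  let G : ℂ → B := fun z => Ring.inverse (1 - z • N)
  have hGd : Differentiable ℂ G := diff_of hN
  -- polynomial growth of `G`
  have hG : ∀ (R : ℝ), 1 ≤ R → ∀ s : ℂ, ‖s‖ ≤ R / 2 →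
      ‖G (s - 1 / 2)‖ ≤ D * (R + 1) ^ k * 8 ^ (k + 1) := by
    intro R hR1 s hs
    have hR0 : 0 < R := by linarith
    let F : ℂ → B := fun z => (z ^ 2 + (R : ℂ) ^ 2) ^ (k + 1) • G (z - 1 / 2)
    have hFd : Differentiable ℂ F := by
      have : Differentiable ℂ fun z : ℂ => G (z - 1 / 2) := by
        refine hGd.comp (by fun_prop)
      fun_prop
    have hFb : ∀ z ∈ frontier (Metric.ball (0 : ℂ) R),
        ‖F z‖ ≤ R ^ (k + 1) * (D * (R + 1) ^ k * (2 * (R + 1)) ^ (k + 1)) := by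
      intro z hz
      rw [frontier_ball _ hR0.ne', mem_sphere_zero_iff_norm] at hz
      have h1 : z ^ 2 + (R : ℂ) ^ 2 = z * (2 * z.re : ℝ) := by
        have h2 : (R : ℂ) ^ 2 = z * (starRingEnd ℂ) z := by
          rw [Complex.mul_conj, Complex.normSq_eq_norm_sq, hz]
          push_cast
          ring
        rw [h2, sq, ← mul_add, Complex.add_conj]
      have h3 : ‖z ^ 2 + (R : ℂ) ^ 2‖ = R * (2 * |z.re|) := by
        rw [h1, norm_mul, hz, Complex.norm_real, Real.norm_eq_abs, abs_mul, abs_two]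
      simp only [F]
      rw [norm_smul, norm_pow, h3, mul_pow]
      have h4 := res_bound hN hx hxy hyx hC hC' z hz.le
      calc R ^ (k + 1) * (2 * |z.re|) ^ (k + 1) * ‖G (z - 1 / 2)‖
          = R ^ (k + 1) * (‖G (z - 1 / 2)‖ * (2 * |z.re|) ^ (k + 1)) := by ring
        _ ≤ _ := by
            gcongr
    have hmem : s ∈ closure (Metric.ball (0 : ℂ) R) := by
      rw [closure_ball _ hR0.ne', mem_closedBall_zero_iff]
      linarith
    have h5 := Complex.norm_le_of_forall_mem_frontier_norm_le (Metric.isBounded_ball)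
      hFd.diffContOnCl hFb hmem
    simp only [F] at h5
    rw [norm_smul, norm_pow] at h5
    have h6 : R ^ 2 / 2 ≤ ‖s ^ 2 + (R : ℂ) ^ 2‖ := by
      have h7 : R ^ 2 ≤ ‖s ^ 2 + (R : ℂ) ^ 2‖ + ‖s‖ ^ 2 := by
        calc R ^ 2 = ‖(R : ℂ) ^ 2‖ := by
              rw [norm_pow, Complex.norm_real, Real.norm_eq_abs, sq_abs]
          _ = ‖(s ^ 2 + (R : ℂ) ^ 2) - s ^ 2‖ := by congr 1; ring
          _ ≤ ‖s ^ 2 + (R : ℂ) ^ 2‖ + ‖s ^ 2‖ := norm_sub_le _ _
          _ = _ := by rw [norm_pow s]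
      have h8 : ‖s‖ ^ 2 ≤ (R / 2) ^ 2 := by gcongr
      nlinarith
    have h9 : (R ^ 2 / 2) ^ (k + 1) * ‖G (s - 1 / 2)‖ ≤
        R ^ (k + 1) * (D * (R + 1) ^ k * (2 * (R + 1)) ^ (k + 1)) :=
      le_trans (by gcongr) h5
    have h10 : R ^ (k + 1) * (D * (R + 1) ^ k * (2 * (R + 1)) ^ (k + 1)) ≤
        (R ^ 2 / 2) ^ (k + 1) * (D * (R + 1) ^ k * 8 ^ (k + 1)) := by
      have h11 : 2 * (R + 1) ≤ 4 * R := by linarith
      calc R ^ (k + 1) * (D * (R + 1) ^ k * (2 * (R + 1)) ^ (k + 1))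
          ≤ R ^ (k + 1) * (D * (R + 1) ^ k * (4 * R) ^ (k + 1)) := by gcongr
        _ = (R * (4 * R)) ^ (k + 1) * (D * (R + 1) ^ k) := by rw [mul_pow R]; ring
        _ = (R ^ 2 / 2 * 8) ^ (k + 1) * (D * (R + 1) ^ k) := by congr 2; ring
        _ = _ := by rw [mul_pow (R ^ 2 / 2)]; ring
    exact le_of_mul_le_mul_left (h9.trans h10) (by positivity)
  -- the function `G * N ^ (k + 1)` vanishes at infinity
  let P : ℂ → B := fun z => G z * N ^ (k + 1)
  have hPd : Differentiable ℂ P := hGd.mul_const _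
  set E : ℝ := D * 7 ^ k * 8 ^ (k + 1) + ∑ j ∈ Finset.range (k + 1), ‖N ^ j‖ with hE
  have hE0 : 0 ≤ E := by positivity
  have hPb : ∀ z : ℂ, 1 ≤ ‖z‖ → ‖P z‖ ≤ E * ‖z‖⁻¹ := by
    intro z hz
    have hz0 : 0 < ‖z‖ := by linarith
    have hzne : z ≠ 0 := norm_pos_iff.mp hz0
    have h1 : ‖G z‖ ≤ D * 7 ^ k * 8 ^ (k + 1) * ‖z‖ ^ k := by
      have h2 := hG (3 * ‖z‖) (by linarith) (z + 1 / 2) (by
        calc ‖z + 1 / 2‖ ≤ ‖z‖ + ‖(1 / 2 : ℂ)‖ := norm_add_le _ _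
          _ ≤ 3 * ‖z‖ / 2 := by norm_num; linarith)
      rw [add_sub_cancel_right] at h2
      refine h2.trans ?_
      have h3 : (3 * ‖z‖ + 1) ^ k ≤ (7 * ‖z‖) ^ k := by gcongr; linarith
      calc D * (3 * ‖z‖ + 1) ^ k * 8 ^ (k + 1) ≤ D * (7 * ‖z‖) ^ k * 8 ^ (k + 1) := by gcongr
        _ = _ := by rw [mul_pow]; ring
    have h4 : z ^ (k + 1) • P z = G z - ∑ j ∈ Finset.range (k + 1), (z • N) ^ j := by
      have h5 : (1 - z • N) * ∑ j ∈ Finset.range (k + 1), (z • N) ^ j = 1 - (z • N) ^ (k + 1) :=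
        mul_neg_geom_sum _ _
      have h6 := Ring.inverse_mul_cancel _ (unit_of hN z)
      have h7 : ∑ j ∈ Finset.range (k + 1), (z • N) ^ j = G z * (1 - (z • N) ^ (k + 1)) := by
        rw [← h5, ← mul_assoc, h6, one_mul]
      rw [h7, mul_sub, mul_one, sub_sub_cancel, smul_pow, mul_smul_comm]
    have h8 : ‖z‖ ^ (k + 1) * ‖P z‖ ≤ E * ‖z‖ ^ k := by
      rw [← norm_pow, ← norm_smul, h4]
      calc ‖G z - ∑ j ∈ Finset.range (k + 1), (z • N) ^ j‖
          ≤ ‖G z‖ + ‖∑ j ∈ Finset.range (k + 1), (z • N) ^ j‖ := norm_sub_le _ _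
        _ ≤ D * 7 ^ k * 8 ^ (k + 1) * ‖z‖ ^ k +
            ∑ j ∈ Finset.range (k + 1), ‖N ^ j‖ * ‖z‖ ^ k := by
            refine add_le_add h1 ((norm_sum_le _ _).trans (Finset.sum_le_sum fun j hj => ?_))
            rw [smul_pow, norm_smul, norm_pow, mul_comm]
            have : j ≤ k := by
              rw [Finset.mem_range] at hj; omega
            gcongr
        _ = E * ‖z‖ ^ k := by rw [← Finset.sum_mul, hE]; ring
    have h9 : ‖z‖ ^ (k + 1) * (E * ‖z‖⁻¹) = E * ‖z‖ ^ k := by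
      rw [pow_succ]; field_simp
    rw [← h9] at h8
    exact le_of_mul_le_mul_left h8 (by positivity)
  have hlim : Tendsto P (cocompact ℂ) (𝓝 0) := by
    rw [tendsto_zero_iff_norm_tendsto_zero]
    have h1 : Tendsto (fun z : ℂ => E * ‖z‖⁻¹) (cocompact ℂ) (𝓝 0) := by
      have := (tendsto_inv_atTop_zero.comp (tendsto_norm_cocompact_atTop (E := ℂ))).const_mul E
      simpa using this
    refine tendsto_of_tendsto_of_tendsto_of_le_of_le' tendsto_const_nhds h1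
      (Eventually.of_forall fun z => norm_nonneg _) ?_
    have h2 : ∀ᶠ z : ℂ in cocompact ℂ, 1 ≤ ‖z‖ :=
      (tendsto_norm_cocompact_atTop (E := ℂ)).eventually_ge_atTop 1
    exact h2.mono hPb
  have h0 := hPd.apply_eq_of_tendsto_cocompact 0 hlim
  simpa [P, G] using h0

end Pool.Agent.Y324.AC
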