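import Pool.Agent.Y324.AC.Idl

/-!
If every self-adjoint element of a closed ideal is mapped to a nilpotent element by an algebra
homomorphism, then the ideal is mapped to zero.
-/

set_option autoImplicit false

open Filter Topology

namespace Pool.Agent.Y324.AC

/-- one term of the series -/
noncomputable def rt (m : ℕ) (t : ℝ) : ℝ := (1 / 2 : ℝ) ^ m * (min |t| 1) ^ (((m : ℝ) + 1)⁻¹)

/-- the slowly vanishing function -/
noncomputable def rf (t : ℝ) : ℝ := ∑' m : ℕ, rt m t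

lemma rt_nonneg (m : ℕ) (t : ℝ) : 0 ≤ rt m t := by
  unfold rt
  have : 0 ≤ min |t| 1 := le_min (abs_nonneg t) zero_le_one
  positivity

lemma rt_le (m : ℕ) (t : ℝ) : rt m t ≤ (1 / 2 : ℝ) ^ m := by
  unfold rt
  have h0 : 0 ≤ min |t| 1 := le_min (abs_nonneg t) zero_le_one
  have : (min |t| 1) ^ (((m : ℝ) + 1)⁻¹) ≤ 1 :=
    Real.rpow_le_one h0 (min_le_right _ _) (by positivity)
  calc _ ≤ (1 / 2 : ℝ) ^ m * 1 := by gcongr
    _ = _ := mul_one _

lemma rt_cont (m : ℕ) : Continuous (rt m) := by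
  unfold rt
  refine Continuous.mul continuous_const ?_
  exact Continuous.rpow_const (by fun_prop) (fun t => Or.inr (by positivity))

lemma rf_cont : Continuous rf := by
  refine continuous_tsum rt_cont summable_geometric_two fun m t => ?_
  rw [Real.norm_eq_abs, abs_of_nonneg (rt_nonneg m t)]
  exact rt_le m t

lemma rt_summable (t : ℝ) : Summable fun m => rt m t :=
  Summable.of_nonneg_of_le (fun m => rt_nonneg m t) (fun m => rt_le m t) summable_geometric_two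

lemma rt_le_rf (m : ℕ) (t : ℝ) : rt m t ≤ rf t :=
  (rt_summable t).le_tsum m (fun n _ => rt_nonneg n t)

lemma rf_zero : rf 0 = 0 := by
  unfold rf
  have : ∀ m : ℕ, rt m 0 = 0 := by
    intro m
    unfold rt
    have h : (min |(0 : ℝ)| 1) = 0 := by simp
    rw [h, Real.zero_rpow (by positivity), mul_zero]
  simp [this]

lemma rf_pos {t : ℝ} (ht : t ≠ 0) : 0 < rf t := by
  refine lt_of_lt_of_le ?_ (rt_le_rf 0 t)
  unfold rt
  have : 0 < min |t| 1 := lt_min (abs_pos.mpr ht) one_pos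
  positivity

lemma rr_bound (K : ℕ) {t : ℝ} (ht : |t| ≤ 1) :
    |t / rf t ^ K| ≤ 2 ^ (2 * K * K) * |t| ^ (1 / 2 : ℝ) := by
  by_cases h0 : t = 0
  · subst h0; simp
  have hp := rf_pos h0
  have hta : 0 < |t| := abs_pos.mpr h0
  rw [abs_div, abs_pow, abs_of_pos hp, div_le_iff₀ (by positivity)]
  have h1 := rt_le_rf (2 * K) t
  have h2 : rt (2 * K) t = (1 / 2 : ℝ) ^ (2 * K) * |t| ^ (((2 * K : ℕ) : ℝ) + 1)⁻¹ := by
    unfold rt
    rw [min_eq_left ht]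
  rw [h2] at h1
  have h3 : ((1 / 2 : ℝ) ^ (2 * K) * |t| ^ (((2 * K : ℕ) : ℝ) + 1)⁻¹) ^ K ≤ rf t ^ K := by
    gcongr
  have h4 : ((1 / 2 : ℝ) ^ (2 * K) * |t| ^ (((2 * K : ℕ) : ℝ) + 1)⁻¹) ^ K =
      (1 / 2 : ℝ) ^ (2 * K * K) * |t| ^ ((((2 * K : ℕ) : ℝ) + 1)⁻¹ * K) := by
    rw [mul_pow, ← pow_mul, Real.rpow_mul_natCast hta.le]
  rw [h4] at h3
  have h5 : |t| ^ (1 / 2 : ℝ) ≤ |t| ^ ((((2 * K : ℕ) : ℝ) + 1)⁻¹ * K) := by
    refine Real.rpow_le_rpow_of_exponent_ge hta ht ?_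
    push_cast
    rw [inv_mul_le_iff₀ (by positivity)]
    linarith
  have h6 : (2 : ℝ) ^ (2 * K * K) * (1 / 2 : ℝ) ^ (2 * K * K) = 1 := by
    rw [← mul_pow]; norm_num
  have h7 : |t| ^ (1 / 2 : ℝ) * |t| ^ (1 / 2 : ℝ) = |t| := by
    rw [← Real.rpow_add hta]; norm_num
  calc |t| = (2 ^ (2 * K * K) * (1 / 2 : ℝ) ^ (2 * K * K)) *
        (|t| ^ (1 / 2 : ℝ) * |t| ^ (1 / 2 : ℝ)) := by rw [h6, h7, one_mul]
    _ ≤ (2 ^ (2 * K * K) * (1 / 2 : ℝ) ^ (2 * K * K)) *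
        (|t| ^ (1 / 2 : ℝ) * |t| ^ ((((2 * K : ℕ) : ℝ) + 1)⁻¹ * K)) := by gcongr
    _ = 2 ^ (2 * K * K) * |t| ^ (1 / 2 : ℝ) *
        ((1 / 2 : ℝ) ^ (2 * K * K) * |t| ^ ((((2 * K : ℕ) : ℝ) + 1)⁻¹ * K)) := by ring
    _ ≤ 2 ^ (2 * K * K) * |t| ^ (1 / 2 : ℝ) * rf t ^ K := by gcongr

lemma rr_cont (K : ℕ) : Continuous fun t : ℝ => t / rf t ^ K := by
  rw [continuous_iff_continuousAt]
  intro t
  by_cases h0 : t = 0
  · subst h0
    have hz : (0 : ℝ) / rf 0 ^ K = 0 := zero_div _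
    change Tendsto (fun t : ℝ => t / rf t ^ K) (𝓝 0) (𝓝 (0 / rf 0 ^ K))
    rw [hz, tendsto_zero_iff_abs_tendsto_zero]
    have h1 : Tendsto (fun t : ℝ => (2 : ℝ) ^ (2 * K * K) * |t| ^ (1 / 2 : ℝ)) (𝓝 0) (𝓝 0) := by
      have hc : Continuous fun t : ℝ => (2 : ℝ) ^ (2 * K * K) * |t| ^ (1 / 2 : ℝ) :=
        Continuous.mul continuous_const
          (Continuous.rpow_const (by fun_prop) (fun t => Or.inr (by norm_num)))
      have := hc.tendsto 0
      rwa [abs_zero, Real.zero_rpow (by norm_num), mul_zero] at this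
    refine tendsto_of_tendsto_of_tendsto_of_le_of_le' tendsto_const_nhds h1
      (Eventually.of_forall fun t => abs_nonneg _) ?_
    have h2 : ∀ᶠ t : ℝ in 𝓝 0, |t| ≤ 1 := by
      filter_upwards [Metric.ball_mem_nhds (0 : ℝ) one_pos] with t ht
      rw [Metric.mem_ball, dist_zero_right] at ht
      exact ht.le
    exact h2.mono fun t ht => rr_bound K ht
  · exact ContinuousAt.div continuousAt_id (rf_cont.continuousAt.pow K)
      (pow_ne_zero _ (rf_pos h0).ne')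

lemma rr_mul (K : ℕ) (t : ℝ) : rf t ^ K * (t / rf t ^ K) = t := by
  by_cases h0 : t = 0
  · subst h0; simp
  · exact mul_div_cancel₀ t (pow_ne_zero _ (rf_pos h0).ne')

variable {A : Type*} [CStarAlgebra A] {R : Type*} [Ring R] [Algebra ℂ R]

theorem root_trick {J : Submodule ℂ A} (hJ : CI J) (ρ : A →ₐ[ℂ] R)
    (hn : ∀ g ∈ J, IsSelfAdjoint g → IsNilpotent (ρ g)) (h : A) (hh : IsSelfAdjoint h)
    (hm : h ∈ J) : ρ h = 0 := by
  obtain ⟨K, hK⟩ := hn (cfc rf h) (hJ.cfc_mem hh hm rf_cont.continuousOn rf_zero)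
    (cfc_predicate rf h)
  have h1 : h = cfc rf h ^ K * cfc (fun t => t / rf t ^ K) h := by
    rw [← cfc_pow rf K h rf_cont.continuousOn, ← cfc_mul (fun t => rf t ^ K)
      (fun t => t / rf t ^ K) h (rf_cont.pow K).continuousOn (rr_cont K).continuousOn]
    conv_lhs => rw [← cfc_id' ℝ h hh]
    congr 1
    funext t
    exact (rr_mul K t).symm
  rw [h1, map_mul, map_pow, hK, zero_mul]

end Pool.Agent.Y324.AC
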