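import Pool.Agent.Y324.AC.Sep
import Pool.Agent.Y324.AC.Root
import Pool.Agent.Y324.AC.Auto

/-!
Automatic continuity of homomorphisms of C*-algebras under pointwise conditions.
-/

set_option autoImplicit false

open Filter Topology

namespace Pool.Agent.Y324.AC

variable {A : Type*} [CStarAlgebra A]

section left

variable {B : Type*} [NormedRing B] [NormedAlgebra ℂ B] [CompleteSpace B]

lemma gm_hom (θ : A →ₐ[ℂ] B) : GM θ.toLinearMap where
  l e := ⟨‖θ e‖, fun c => by
    simp only [AlgHom.toLinearMap_apply, map_mul]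
    calc ‖θ e * θ c‖ ≤ ‖θ e‖ * ‖θ c‖ := norm_mul_le _ _
      _ ≤ ‖θ e‖ * (‖θ c‖ + ‖c‖) := by gcongr; linarith [norm_nonneg c]⟩
  r e := ⟨‖θ e‖, fun c => by
    simp only [AlgHom.toLinearMap_apply, map_mul]
    calc ‖θ c * θ e‖ ≤ ‖θ c‖ * ‖θ e‖ := norm_mul_le _ _
      _ ≤ (‖θ c‖ + ‖c‖) * ‖θ e‖ := by gcongr; linarith [norm_nonneg c]
      _ = _ := mul_comm _ _⟩

/-- closure of the left continuity ideal -/
noncomputable def KL (θ : A →ₐ[ℂ] B) : Submodule ℂ A := (ILm θ.toLinearMap).topologicalClosure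

lemma mem_KL (θ : A →ₐ[ℂ] B) {a : A} : a ∈ KL θ ↔ a ∈ closure (IL θ.toLinearMap) := Iff.rfl

lemma ci_KL (θ : A →ₐ[ℂ] B) : CI (KL θ) where
  l a x hx := by
    rw [mem_KL] at hx ⊢
    exact map_mem_closure (continuous_const_mul a) hx
      (fun y hy => IL_mul_left (gm_hom θ) a hy)
  r a x hx := by
    rw [mem_KL] at hx ⊢
    exact map_mem_closure (f := fun y => y * a) (continuous_mul_const a) hx
      (fun y hy => IL_mul_right a hy)
  c := isClosed_closure

/-- if every self-adjoint element of the closure of the continuity ideal acts as a nilpotent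
operator, then the continuity ideal is closed -/
lemma closed_of_nil (θ : A →ₐ[ℂ] B)
    (hn : ∀ g ∈ KL θ, IsSelfAdjoint g → IsNilpotent (act θ g)) : IsClosed (IL θ.toLinearMap) := by
  have hK := ci_KL θ
  have hsa : ∀ g ∈ KL θ, IsSelfAdjoint g → g ∈ IL θ.toLinearMap := fun g hg hs => by
    rw [← act_eq_zero_iff]
    exact root_trick hK (act θ) hn g hs hg
  rw [← closure_subset_iff_isClosed]
  intro x hx
  have hx' : x ∈ KL θ := hx
  have hst := hK.star_mem hx'
  have h1 := hsa (x + star x) ((KL θ).add_mem hx' hst) (IsSelfAdjoint.add_star_self x)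
  have h2 := hsa (Complex.I • (x - star x)) ((KL θ).smul_mem _ ((KL θ).sub_mem hx' hst)) (by
    rw [isSelfAdjoint_iff, star_smul, star_sub, star_star]
    simp only [RCLike.star_def, Complex.conj_I, neg_smul, smul_sub]
    abel)
  have h3 : x = (1 / 2 : ℂ) • ((x + star x) - Complex.I • (Complex.I • (x - star x))) := by
    rw [smul_smul, Complex.I_mul_I, neg_one_smul, sub_neg_eq_add]
    have : x + star x + (x - star x) = (2 : ℂ) • x := by rw [two_smul]; abel
    rw [this, smul_smul]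
    norm_num
  have h4 : x ∈ ILm θ.toLinearMap := by
    rw [h3]
    exact (ILm θ.toLinearMap).smul_mem _ ((ILm θ.toLinearMap).sub_mem h1
      ((ILm θ.toLinearMap).smul_mem _ h2))
  exact h4

/-- polynomial growth of the powers of the image of every unitary -/
def Growth (θ : A → B) : Prop :=
  ∀ w ∈ unitary A, ∃ (C : ℝ) (k : ℕ), ∀ n : ℕ, ‖θ w ^ n‖ ≤ C * ((n : ℝ) + 1) ^ k

lemma growth_nonneg {b : B} {C : ℝ} {k : ℕ} (hC : ∀ n : ℕ, ‖b ^ n‖ ≤ C * ((n : ℝ) + 1) ^ k) :
    0 ≤ C := by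
  have := hC 0
  simp only [pow_zero, Nat.cast_zero, zero_add, one_pow, mul_one] at this
  exact (norm_nonneg _).trans this

lemma growth_mono {C C' : ℝ} {k k' : ℕ} (hC : 0 ≤ C) (hC' : C ≤ C') (hk : k ≤ k') (n : ℕ) :
    C * ((n : ℝ) + 1) ^ k ≤ C' * ((n : ℝ) + 1) ^ k' := by
  have h1 : (1 : ℝ) ≤ (n : ℝ) + 1 := by linarith [n.cast_nonneg (α := ℝ)]
  have := pow_le_pow_right₀ h1 hk
  have h2 : 0 ≤ C' := hC.trans hC'
  gcongr

lemma unip' {R : Type*} [NormedRing R] [NormedAlgebra ℂ R] [CompleteSpace R] (ρ : A →ₐ[ℂ] R)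
    {w : A} (hw : w ∈ unitary A) (hq : spectralRadius ℂ (ρ (w - 1)) = 0) {C C' : ℝ} {k k' : ℕ}
    (hC0 : 0 ≤ C) (hC0' : 0 ≤ C')
    (hC : ∀ n : ℕ, ‖ρ (w ^ n)‖ ≤ C * ((n : ℝ) + 1) ^ k)
    (hC' : ∀ n : ℕ, ‖ρ (star w ^ n)‖ ≤ C' * ((n : ℝ) + 1) ^ k') :
    IsNilpotent (ρ (w - 1)) := by
  refine ⟨k + k' + 1, hille (N := ρ (w - 1)) (x := ρ w) (y := ρ (star w)) (C := C + C')
    hq (by rw [map_sub, map_one]; abel) ?_ ?_ ?_ ?_⟩
  · rw [← map_mul, (Unitary.mem_iff.mp hw).2, map_one]
  · rw [← map_mul, (Unitary.mem_iff.mp hw).1, map_one]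
  · intro n
    rw [← map_pow]
    exact (hC n).trans (growth_mono hC0 (by linarith) (by omega) n)
  · intro n
    rw [← map_pow]
    exact (hC' n).trans (growth_mono hC0' (by linarith) (by omega) n)

lemma act_norm_pow (θ : A →ₐ[ℂ] B) (w : A) (n : ℕ) : ‖act θ (w ^ n)‖ ≤ ‖θ w ^ n‖ := by
  rw [← map_pow θ]
  exact act_norm θ _

set_option maxHeartbeats 400000 in
/-- unitaries congruent to one act as unipotent operators -/
lemma unip (θ : A →ₐ[ℂ] B) (hθ : Growth θ) {w : A} (hw : w ∈ unitary A) (h1 : w - 1 ∈ KL θ) :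
    IsNilpotent (act θ (w - 1)) := by
  obtain ⟨C, k, hC⟩ := hθ w hw
  obtain ⟨C', k', hC'⟩ := hθ (star w) (Unitary.star_mem hw)
  exact unip' (act θ) hw (act_qn θ h1) (growth_nonneg hC) (growth_nonneg hC')
    (fun n => (act_norm_pow θ w n).trans (hC n))
    (fun n => (act_norm_pow θ (star w) n).trans (hC' n))

/-- the unitary with given small imaginary part -/
lemma exists_unitary {g : A} (hg : IsSelfAdjoint g) (h1 : ‖g‖ ≤ 1) :
    ∃ c : A, (c + Complex.I • g) ∈ unitary A ∧ (c - Complex.I • g) ∈ unitary A ∧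
      Commute c g ∧ c - 1 = cfc (fun t : ℝ => Real.sqrt (1 - t ^ 2) - 1) g := by
  have hc : IsSelfAdjoint (cfc (fun t : ℝ => Real.sqrt (1 - t ^ 2)) g) := cfc_predicate _ g
  have hcomm : Commute (cfc (fun t : ℝ => Real.sqrt (1 - t ^ 2)) g) g := by
    have := cfc_commute_cfc (fun t : ℝ => Real.sqrt (1 - t ^ 2)) (fun t : ℝ => t) g
    rwa [cfc_id' ℝ g hg] at this
  have hcc : cfc (fun t : ℝ => Real.sqrt (1 - t ^ 2)) g *
      cfc (fun t : ℝ => Real.sqrt (1 - t ^ 2)) g + g * g = 1 := by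
    rw [← cfc_mul _ _ g (by fun_prop) (by fun_prop)]
    have h2 : g * g = cfc (fun t : ℝ => t * t) g := by
      rw [cfc_mul _ _ g (by fun_prop) (by fun_prop), cfc_id' ℝ g hg]
    rw [h2, ← cfc_add _ _ _ (by fun_prop) (by fun_prop), ← cfc_const_one ℝ g]
    refine cfc_congr fun t ht => ?_
    have h3 : |t| ≤ 1 := (abs_le_norm hg ht).trans h1
    have h4 : 0 ≤ 1 - t ^ 2 := by
      have : t ^ 2 ≤ 1 := by
        rw [← sq_abs]
        exact pow_le_one₀ (abs_nonneg t) h3
      linarith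
    rw [Real.mul_self_sqrt h4]
    ring
  set c := cfc (fun t : ℝ => Real.sqrt (1 - t ^ 2)) g with hcdef
  have e1 : (c - Complex.I • g) * (c + Complex.I • g) = 1 := by
    rw [sub_mul, mul_add, mul_add, mul_smul_comm, smul_mul_assoc, smul_mul_assoc, mul_smul_comm,
      smul_smul, Complex.I_mul_I, neg_one_smul, hcomm.eq, ← hcc]
    abel
  have e2 : (c + Complex.I • g) * (c - Complex.I • g) = 1 := by
    rw [add_mul, mul_sub, mul_sub, mul_smul_comm, smul_mul_assoc, smul_mul_assoc, mul_smul_comm,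
      smul_smul, Complex.I_mul_I, neg_one_smul, hcomm.eq, ← hcc]
    abel
  have s1 : star (c + Complex.I • g) = c - Complex.I • g := by
    rw [star_add, hc.star_eq, star_smul, hg.star_eq, RCLike.star_def, Complex.conj_I, neg_smul,
      sub_eq_add_neg]
  have s2 : star (c - Complex.I • g) = c + Complex.I • g := by
    rw [← s1, star_star]
  refine ⟨c, ?_, ?_, hcomm, ?_⟩
  · rw [Unitary.mem_iff, s1]; exact ⟨e1, e2⟩
  · rw [Unitary.mem_iff, s2]; exact ⟨e2, e1⟩
  · rw [hcdef, cfc_sub _ _ g (by fun_prop) (by fun_prop), cfc_const_one ℝ g]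

/-- from unipotent unitaries to nilpotent self-adjoint elements -/
lemma nil_of_unip {R : Type*} [Ring R] [Algebra ℂ R] {J : Submodule ℂ A} (hJ : CI J)
    (ρ : A →ₐ[ℂ] R) (hu : ∀ w ∈ unitary A, w - 1 ∈ J → IsNilpotent (ρ (w - 1)))
    {g : A} (hg : IsSelfAdjoint g) (hm : g ∈ J) : IsNilpotent (ρ g) := by
  have key : ∀ g : A, IsSelfAdjoint g → g ∈ J → ‖g‖ ≤ 1 → IsNilpotent (ρ g) := by
    intro g hg hm h1
    obtain ⟨c, hc1, hc2, hcomm, hc⟩ := exists_unitary hg h1
    have hcJ : c - 1 ∈ J := by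
      rw [hc]
      exact hJ.cfc_mem hg hm (by fun_prop) (by simp)
    have m1 : (c + Complex.I • g) - 1 ∈ J := by
      have : (c + Complex.I • g) - 1 = (c - 1) + Complex.I • g := by abel
      rw [this]
      exact J.add_mem hcJ (J.smul_mem _ hm)
    have m2 : (c - Complex.I • g) - 1 ∈ J := by
      have : (c - Complex.I • g) - 1 = (c - 1) - Complex.I • g := by abel
      rw [this]
      exact J.sub_mem hcJ (J.smul_mem _ hm)
    have n1 := hu _ hc1 m1
    have n2 := hu _ hc2 m2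
    have hcm : Commute ((c + Complex.I • g) - 1) ((c - Complex.I • g) - 1) := by
      have hI : Commute c (Complex.I • g) := hcomm.smul_right _
      refine Commute.sub_left ?_ (Commute.one_left _)
      refine Commute.sub_right ?_ (Commute.one_right _)
      exact Commute.add_left (Commute.sub_right (Commute.refl c) hI)
        (Commute.sub_right hI.symm (Commute.refl _))
    have n3 := (hcm.map ρ).isNilpotent_sub n1 n2
    rw [← map_sub] at n3
    have h2 : (c + Complex.I • g) - 1 - ((c - Complex.I • g) - 1) = (2 * Complex.I) • g := by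
      rw [mul_smul, two_smul]; abel
    rw [h2, map_smul] at n3
    have n4 := n3.smul (2 * Complex.I)⁻¹
    rwa [smul_smul, inv_mul_cancel₀ (by simp), one_smul] at n4
  have hpos : 0 < ‖g‖ + 1 := by positivity
  have h2 := key (((‖g‖ + 1)⁻¹ : ℝ) • g) (IsSelfAdjoint.smul (IsSelfAdjoint.all _) hg) ?_ ?_
  · have h3 : g = ((‖g‖ + 1 : ℝ) : ℂ) • (((‖g‖ + 1)⁻¹ : ℝ) • g) := by
      rw [← Complex.coe_smul, smul_smul, ← Complex.ofReal_mul, mul_inv_cancel₀ hpos.ne']
      simp
    rw [h3, map_smul]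
    exact h2.smul _
  · rw [← Complex.coe_smul]
    exact J.smul_mem _ hm
  · rw [norm_smul, Real.norm_eq_abs, abs_of_pos (by positivity), inv_mul_le_iff₀ hpos]
    linarith

/-- **closedness of the left continuity ideal under polynomial growth** -/
theorem closed_of_growth (θ : A →ₐ[ℂ] B) (hθ : Growth θ) : IsClosed (IL θ.toLinearMap) :=
  closed_of_nil θ fun _ hg hs => nil_of_unip (ci_KL θ) (act θ) (fun _ hw h1 => unip θ hθ hw h1)
    hs hg

end left

section star

variable {B : Type*} [NormedRing B] [StarRing B] [NormedAlgebra ℂ B] [StarModule ℂ B]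
  [NormedStarGroup B]

/-- the conjugate homomorphism -/
noncomputable def cj (θ : A →ₐ[ℂ] B) : A →ₐ[ℂ] B :=
  AlgHom.ofLinearMap
    { toFun := fun a => star (θ (star a))
      map_add' := fun a b => by simp
      map_smul' := fun r a => by simp }
    (by simp)
    (by intro a b; simp)

lemma cj_apply (θ : A →ₐ[ℂ] B) (a : A) : cj θ a = star (θ (star a)) := rfl

lemma IR_eq (θ : A →ₐ[ℂ] B) : IR θ.toLinearMap = star ⁻¹' IL (cj θ).toLinearMap := by
  ext a
  constructor
  · rintro ⟨M, hM⟩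
    refine ⟨M, fun b => ?_⟩
    have := hM (star b)
    rw [norm_star] at this
    rw [AlgHom.toLinearMap_apply, cj_apply, norm_star, star_mul, star_star]
    exact this
  · rintro ⟨M, hM⟩
    refine ⟨M, fun b => ?_⟩
    have := hM (star b)
    rw [AlgHom.toLinearMap_apply, cj_apply, norm_star, star_mul, star_star, star_star,
      norm_star] at this
    exact this

lemma growth_cj {θ : A →ₐ[ℂ] B} (hθ : Growth θ) : Growth (cj θ) := by
  intro w hw
  obtain ⟨C, k, h⟩ := hθ (star w) (Unitary.star_mem hw)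
  refine ⟨C, k, fun n => ?_⟩
  rw [cj_apply, ← star_pow, norm_star]
  exact h n

/-- **Automatic continuity under pointwise polynomial growth.** -/
theorem bounded_of_growth [CompleteSpace B] (θ : A →ₐ[ℂ] B) (hθ : Growth θ) :
    ∃ M : ℝ, ∀ a, ‖θ a‖ ≤ M * ‖a‖ := by
  refine auto (gm_hom θ) (closed_of_growth θ hθ) ?_
  rw [IR_eq]
  exact (closed_of_growth (cj θ) (growth_cj hθ)).preimage continuous_star

end star

end Pool.Agent.Y324.AC
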