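import Pool.Agent.Y324.AC.Abs
import Pool.Agent.Y324.AC.Hille

/-!
The separating space of a homomorphism of a C*-algebra and the action of the algebra on it.
-/

set_option autoImplicit false

open Filter Topology

namespace Pool.Agent.Y324.AC

section general

variable {X Y : Type*} [NormedAddCommGroup X] [NormedSpace ℂ X] [CompleteSpace X]
  [NormedAddCommGroup Y] [NormedSpace ℂ Y] [CompleteSpace Y]

/-- closure of the graph -/
noncomputable def cg (T : X →ₗ[ℂ] Y) : Submodule ℂ (X × Y) := T.graph.topologicalClosure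

/-- separating space -/
noncomputable def sep (T : X →ₗ[ℂ] Y) : Submodule ℂ Y := (cg T).comap (LinearMap.inr ℂ X Y)

lemma mem_sep {T : X →ₗ[ℂ] Y} {y : Y} : y ∈ sep T ↔ ((0 : X), y) ∈ closure (T.graph : Set (X × Y)) :=
  Iff.rfl

lemma sep_closed (T : X →ₗ[ℂ] Y) : IsClosed (sep T : Set Y) := by
  have : (sep T : Set Y) = (fun y : Y => ((0 : X), y)) ⁻¹' closure (T.graph : Set (X × Y)) := rfl
  rw [this]
  exact isClosed_closure.preimage (by fun_prop)

lemma sep_bound (T : X →ₗ[ℂ] Y) : ∃ C : ℝ, ∀ x : X, ∃ s ∈ sep T, ‖T x - s‖ ≤ C * ‖x‖ := by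
  have hc : IsClosed ((cg T : Submodule ℂ (X × Y)) : Set (X × Y)) := isClosed_closure
  have : CompleteSpace (cg T) := hc.completeSpace_coe
  let p : cg T →L[ℂ] X := (ContinuousLinearMap.fst ℂ X Y).comp (cg T).subtypeL
  have hgr : ∀ x : X, (x, T x) ∈ cg T := fun x => subset_closure (by simp [LinearMap.mem_graph_iff])
  have hp : Function.Surjective p := fun x => ⟨⟨(x, T x), hgr x⟩, rfl⟩
  obtain ⟨C, hC0, hC⟩ := p.exists_preimage_norm_le hp
  refine ⟨C, fun x => ?_⟩
  obtain ⟨⟨⟨x', y⟩, hxy⟩, h1, h2⟩ := hC x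
  have h3 : x' = x := h1
  subst h3
  refine ⟨T x' - y, ?_, ?_⟩
  · have h4 := (cg T).sub_mem (hgr x') hxy
    have h5 : ((x', T x') : X × Y) - (x', y) = (0, T x' - y) := by simp
    rw [h5] at h4
    exact h4
  · rw [sub_sub_cancel]
    exact le_trans (norm_snd_le (x', y)) h2

end general

variable {A : Type*} [CStarAlgebra A] {B : Type*} [NormedRing B] [NormedAlgebra ℂ B]
  [CompleteSpace B]

/-- separating space of a homomorphism -/
noncomputable def sp (θ : A →ₐ[ℂ] B) : Submodule ℂ B := sep θ.toLinearMap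

/-- separating space as a Banach space -/
def Sp (θ : A →ₐ[ℂ] B) : Type _ := sp θ

noncomputable instance (θ : A →ₐ[ℂ] B) : NormedAddCommGroup (Sp θ) :=
  inferInstanceAs (NormedAddCommGroup (sp θ))

noncomputable instance (θ : A →ₐ[ℂ] B) : NormedSpace ℂ (Sp θ) :=
  inferInstanceAs (NormedSpace ℂ (sp θ))

instance sp_complete (θ : A →ₐ[ℂ] B) : CompleteSpace (Sp θ) :=
  (sep_closed θ.toLinearMap).completeSpace_coe

/-- the inclusion -/
noncomputable def inc (θ : A →ₐ[ℂ] B) : Sp θ →ₗ[ℂ] B := (sp θ).subtype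

lemma inc_norm (θ : A →ₐ[ℂ] B) (s : Sp θ) : ‖inc θ s‖ = ‖s‖ := rfl

lemma inc_mem (θ : A →ₐ[ℂ] B) (s : Sp θ) : inc θ s ∈ sp θ := Subtype.mem s

lemma inc_inj (θ : A →ₐ[ℂ] B) {s t : Sp θ} (h : inc θ s = inc θ t) : s = t := Subtype.ext h

lemma inc_surj (θ : A →ₐ[ℂ] B) {b : B} (h : b ∈ sp θ) : ∃ s : Sp θ, inc θ s = b := ⟨⟨b, h⟩, rfl⟩

lemma sp_mul (θ : A →ₐ[ℂ] B) (a : A) {s : B} (hs : s ∈ sp θ) : θ a * s ∈ sp θ := by
  change _ ∈ sep _ at hs
  change _ ∈ sep _
  rw [mem_sep] at hs ⊢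
  have hcont : Continuous fun p : A × B => (a * p.1, θ a * p.2) := by fun_prop
  have hmaps : Set.MapsTo (fun p : A × B => (a * p.1, θ a * p.2))
      (θ.toLinearMap.graph : Set (A × B)) (θ.toLinearMap.graph : Set (A × B)) := by
    rintro ⟨x, y⟩ h
    simp only [SetLike.mem_coe, LinearMap.mem_graph_iff, AlgHom.toLinearMap_apply] at h ⊢
    rw [h, map_mul]
  have := map_mem_closure hcont hs hmaps
  simpa using this

/-- multiplication as a linear map on the separating space -/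
noncomputable def mulSp (θ : A →ₐ[ℂ] B) (a : A) : Sp θ →ₗ[ℂ] Sp θ :=
  ((LinearMap.mulLeft ℂ (θ a)).domRestrict (sp θ)).codRestrict (sp θ) (fun s => sp_mul θ a s.2)

lemma inc_mulSp (θ : A →ₐ[ℂ] B) (a : A) (s : Sp θ) : inc θ (mulSp θ a s) = θ a * inc θ s := rfl

noncomputable def mulC (θ : A →ₐ[ℂ] B) (a : A) : Sp θ →L[ℂ] Sp θ :=
  (mulSp θ a).mkContinuous ‖θ a‖ (fun s => by
    rw [← inc_norm, ← inc_norm, inc_mulSp]
    exact norm_mul_le _ _)

lemma inc_mulC (θ : A →ₐ[ℂ] B) (a : A) (s : Sp θ) : inc θ (mulC θ a s) = θ a * inc θ s := rfl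

/-- the action on the separating space -/
noncomputable def actL (θ : A →ₐ[ℂ] B) : A →ₗ[ℂ] (Sp θ →L[ℂ] Sp θ) where
  toFun a := mulC θ a
  map_add' a b := by
    ext s
    apply inc_inj
    rw [ContinuousLinearMap.add_apply, map_add, inc_mulC, inc_mulC, inc_mulC, map_add, add_mul]
  map_smul' r a := by
    ext s
    apply inc_inj
    rw [RingHom.id_apply, ContinuousLinearMap.smul_apply, map_smul, inc_mulC, inc_mulC, map_smul,
      smul_mul_assoc]

noncomputable def act (θ : A →ₐ[ℂ] B) : A →ₐ[ℂ] (Sp θ →L[ℂ] Sp θ) :=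
  AlgHom.ofLinearMap (actL θ)
    (by
      ext s
      apply inc_inj
      change inc θ (mulC θ 1 s) = inc θ s
      rw [inc_mulC, map_one, one_mul])
    (by
      intro a b
      ext s
      apply inc_inj
      change inc θ (mulC θ (a * b) s) = inc θ (mulC θ a (mulC θ b s))
      rw [inc_mulC, inc_mulC, inc_mulC, map_mul, mul_assoc])

lemma act_apply (θ : A →ₐ[ℂ] B) (a : A) (s : Sp θ) : inc θ (act θ a s) = θ a * inc θ s := rfl

lemma act_norm (θ : A →ₐ[ℂ] B) (a : A) : ‖act θ a‖ ≤ ‖θ a‖ := by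
  refine ContinuousLinearMap.opNorm_le_bound _ (norm_nonneg _) fun s => ?_
  rw [← inc_norm, ← inc_norm, act_apply]
  exact norm_mul_le _ _

lemma act_eq_zero_iff (θ : A →ₐ[ℂ] B) (a : A) : act θ a = 0 ↔ a ∈ IL θ.toLinearMap := by
  constructor
  · intro h
    obtain ⟨C, hC⟩ := sep_bound θ.toLinearMap
    refine ⟨‖θ a‖ * C, fun b => ?_⟩
    obtain ⟨s, hs, h1⟩ := hC b
    obtain ⟨s', rfl⟩ := inc_surj θ hs
    have h2 : θ a * inc θ s' = 0 := by
      rw [← act_apply θ a s', h]; rfl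
    have h3 : θ.toLinearMap (a * b) = θ a * (θ b - inc θ s') := by
      rw [mul_sub, h2, sub_zero, AlgHom.toLinearMap_apply, map_mul]
    rw [h3]
    calc ‖θ a * (θ b - inc θ s')‖ ≤ ‖θ a‖ * ‖θ b - inc θ s'‖ := norm_mul_le _ _
      _ ≤ ‖θ a‖ * (C * ‖b‖) := by gcongr; exact h1
      _ = _ := by ring
  · rintro ⟨M, hM⟩
    ext s
    apply inc_inj
    rw [act_apply]
    have hcl : IsClosed {p : A × B | ‖θ a * p.2‖ ≤ M * ‖p.1‖} :=
      isClosed_le (by fun_prop) (by fun_prop)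
    have hsub : (θ.toLinearMap.graph : Set (A × B)) ⊆ {p : A × B | ‖θ a * p.2‖ ≤ M * ‖p.1‖} := by
      rintro ⟨x, y⟩ h
      simp only [SetLike.mem_coe, LinearMap.mem_graph_iff, AlgHom.toLinearMap_apply] at h
      simp only [Set.mem_setOf_eq]
      rw [h, ← map_mul]
      exact hM x
    have h1 := closure_minimal hsub hcl (mem_sep.mp (inc_mem θ s))
    simp only [Set.mem_setOf_eq, norm_zero, mul_zero, norm_le_zero_iff] at h1
    rw [h1, ContinuousLinearMap.zero_apply, map_zero]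

/-- elements of the closure of the continuity ideal act as quasi-nilpotent operators -/
lemma act_qn (θ : A →ₐ[ℂ] B) {x : A} (hx : x ∈ closure (IL θ.toLinearMap)) :
    spectralRadius ℂ (act θ x) = 0 := by
  by_cases hnt : Nontrivial A
  swap
  · rw [not_nontrivial_iff_subsingleton] at hnt
    have : x = 0 := Subsingleton.elim _ _
    rw [this, map_zero, spectrum.spectralRadius_zero]
  have hle : ∀ ε : ℝ, 0 < ε → spectralRadius ℂ (act θ x) ≤ ENNReal.ofReal ε := by
    intro ε hε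
    obtain ⟨z, hz, hxz⟩ := Metric.mem_closure_iff.mp hx ε hε
    have h1 : act θ x = act θ (x - z) := by
      rw [map_sub, (act_eq_zero_iff θ z).mpr hz, sub_zero]
    rw [h1]
    have h2 : spectralRadius ℂ (act θ (x - z)) ≤ spectralRadius ℂ (x - z) := by
      refine biSup_mono fun c hc => ?_
      exact AlgHom.spectrum_apply_subset (act θ) (x - z) hc
    refine h2.trans ((spectrum.spectralRadius_le_nnnorm (𝕜 := ℂ) (x - z)).trans ?_)
    rw [dist_eq_norm] at hxz
    rw [← coe_nnnorm] at hxz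
    rw [← ENNReal.ofReal_coe_nnreal]
    exact ENNReal.ofReal_le_ofReal hxz.le
  refine le_antisymm (ENNReal.le_of_forall_pos_le_add fun ε hε _ => ?_) (zero_le)
  rw [zero_add]
  have := hle ε (by exact_mod_cast hε)
  simpa using this

end Pool.Agent.Y324.AC
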